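import Mathlib

/-!
Lower bound construction: a graph `GG s` (`s` odd) on `2 s^2 + 8 s + 8` vertices which is not
3-colourable but becomes 3-colourable when one of the `2 s^2` core vertices is deleted.
-/

namespace H851VC

theorem fin3_third' (x y a b : Fin 3) (hxa : x ≠ a) (hxb : x ≠ b) (hya : y ≠ a) (hyb : y ≠ b)
    (hab : a ≠ b) : x = y := by
  revert x y a b; decide

theorem fin3_no4' (z a b t : Fin 3) (hab : a ≠ b) (hta : t ≠ a) (htb : t ≠ b)
    (hza : z ≠ a) (hzb : z ≠ b) (hzt : z ≠ t) : False :=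
  hzt (fin3_third' z t a b hza hzb hta htb hab)

/-- vertices of the construction -/
inductive GV (s : ℕ) : Type
  | core (σ : Bool) (i j : Fin s)
  | port (σ τ : Bool) (i : Fin s)
  | cyc (σ τ : Bool) (i : Fin s)
  | hub (σ τ : Bool)
  | mid (σ τ : Bool)
  deriving DecidableEq

namespace GV

/-- the (one-directional) adjacency relation -/
def rel {s : ℕ} : GV s → GV s → Prop
  | core σ _ _, core σ' _ _ => σ = false ∧ σ' = true
  | core σ i j, port σ' τ l => σ' = σ ∧ ((τ = false ∧ l = i) ∨ (τ = true ∧ l = j))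
  | port σ τ i, cyc σ' τ' l => σ' = σ ∧ τ' = τ ∧ l = i
  | cyc σ τ i, cyc σ' τ' l =>
      σ' = σ ∧ τ' = τ ∧ (l.val = i.val + 1 ∨ (i.val = 0 ∧ l.val + 1 = s))
  | hub σ τ, port σ' τ' _ => σ' = σ ∧ τ' = τ
  | hub σ _, core σ' _ _ => σ' = !σ
  | mid σ τ, hub σ' τ' => σ' = σ ∧ τ' = τ
  | mid σ τ, mid σ' τ' => σ' = σ ∧ τ = false ∧ τ' = true
  | mid σ τ, core σ' i j => σ' = (!σ) ∧ ((τ = false ∧ i.val = 0 ∧ j.val = 0) ∨
      (τ = true ∧ i.val = 1 ∧ j.val = 1))
  | _, _ => False

end GV

open GV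

/-- the graph of the construction -/
def GG (s : ℕ) : SimpleGraph (GV s) := SimpleGraph.fromRel GV.rel

theorem GG_adj_of_rel {s : ℕ} {u v : GV s} (h : GV.rel u v) (hne : u ≠ v) : (GG s).Adj u v := by
  rw [GG, SimpleGraph.fromRel_adj]
  exact ⟨hne, Or.inl h⟩

/-- an odd cycle cannot be properly coloured with two colours -/
theorem odd_cycle {s : ℕ} (hs : s % 2 = 1) (hs1 : 1 < s) (g : Fin s → Fin 3) (β : Fin 3)
    (hβ : ∀ i, g i ≠ β) (h1 : ∀ i l : Fin s, l.val = i.val + 1 → g i ≠ g l)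
    (h2 : ∀ i l : Fin s, i.val = 0 → l.val + 1 = s → g i ≠ g l) : False := by
  have key : ∀ m : ℕ, ∀ h : 2 * m < s, g ⟨2 * m, h⟩ = g ⟨0, by omega⟩ := by
    intro m
    induction m with
    | zero => intro h; rfl
    | succ m ih =>
      intro h
      rw [← ih (by omega)]
      exact fin3_third' _ _ β (g ⟨2 * m + 1, by omega⟩) (hβ _) (h1 _ _ (by simp; omega)).symm
        (hβ _) (h1 _ _ (by simp)) (hβ _).symm
  have h3 : 2 * ((s - 1) / 2) < s := by omega
  apply h2 ⟨0, by omega⟩ ⟨2 * ((s - 1) / 2), h3⟩ rfl (by simp; omega)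
  exact (key _ h3).symm

/-- if the core on side `!σ` is monochromatic then there is no proper colouring -/
theorem no_mono {s : ℕ} (hs : s % 2 = 1) (hs1 : 1 < s) (f : GV s → Fin 3)
    (hf : ∀ u v, (GG s).Adj u v → f u ≠ f v) (σ : Bool) (β : Fin 3)
    (hβ : ∀ i j, f (core (!σ) i j) = β) : False := by
  have hf' : ∀ u v, GV.rel u v → u ≠ v → f u ≠ f v := fun u v h hne => hf u v (GG_adj_of_rel h hne)
  let z : Fin s := ⟨0, by omega⟩
  let o : Fin s := ⟨1, hs1⟩
  have hhub : ∀ τ, f (hub σ τ) ≠ β := by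
    intro τ
    rw [← hβ z z]
    exact hf' _ _ (by simp [GV.rel]) (by simp)
  have hmid : ∀ τ, f (mid σ τ) ≠ β := by
    intro τ
    cases τ
    · rw [← hβ z z]
      exact hf' _ _ (by simp [GV.rel, z]) (by simp)
    · rw [← hβ o o]
      exact hf' _ _ (by simp [GV.rel, o]) (by simp)
  have hmm : f (mid σ false) ≠ f (mid σ true) := hf' _ _ (by simp [GV.rel]) (by simp)
  have hmh : ∀ τ, f (mid σ τ) ≠ f (hub σ τ) := fun τ => hf' _ _ (by simp [GV.rel]) (by simp)
  have e1 : f (hub σ false) = f (mid σ true) :=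
    fin3_third' _ _ β (f (mid σ false)) (hhub _) (hmh _).symm (hmid _) hmm.symm (hmid _).symm
  have e2 : f (hub σ true) = f (mid σ false) :=
    fin3_third' _ _ β (f (mid σ true)) (hhub _) (hmh _).symm (hmid _) hmm (hmid _).symm
  have hport : ∀ τ, ∃ i, f (port σ τ i) ≠ β := by
    intro τ
    by_contra hno
    push Not at hno
    refine odd_cycle hs hs1 (fun i => f (cyc σ τ i)) β ?_ ?_ ?_
    · intro i
      rw [← hno i]
      exact (hf' (port σ τ i) (cyc σ τ i) (by simp [GV.rel]) (by simp)).symm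
    · intro i l h
      refine hf' (cyc σ τ i) (cyc σ τ l) (by simp [GV.rel, h]) ?_
      intro he
      simp only [cyc.injEq, true_and] at he
      rw [he] at h; omega
    · intro i l h h'
      refine hf' (cyc σ τ i) (cyc σ τ l) (by simp [GV.rel, h, h']) ?_
      intro he
      simp only [cyc.injEq, true_and] at he
      rw [he] at h; omega
  obtain ⟨i, hi⟩ := hport false
  obtain ⟨j, hj⟩ := hport true
  have p1 : f (hub σ false) ≠ f (port σ false i) := hf' _ _ (by simp [GV.rel]) (by simp)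
  have p2 : f (hub σ true) ≠ f (port σ true j) := hf' _ _ (by simp [GV.rel]) (by simp)
  have e3 : f (port σ false i) = f (mid σ false) :=
    fin3_third' _ _ β (f (mid σ true)) hi (by rw [← e1]; exact p1.symm) (hmid _) hmm (hmid _).symm
  have e4 : f (port σ true j) = f (mid σ true) :=
    fin3_third' _ _ β (f (mid σ false)) hj (by rw [← e2]; exact p2.symm) (hmid _) hmm.symm
      (hmid _).symm
  have c1 : f (core σ i j) ≠ f (port σ false i) := hf' _ _ (by simp [GV.rel]) (by simp)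
  have c2 : f (core σ i j) ≠ f (port σ true j) := hf' _ _ (by simp [GV.rel]) (by simp)
  have c3 : f (core σ i j) ≠ β := by
    rw [← hβ z z]
    cases σ
    · exact hf' _ _ (by simp [GV.rel]) (by simp)
    · exact (hf' (core false z z) (core true i j) (by simp [GV.rel]) (by simp)).symm
  exact fin3_no4' _ _ _ _ (by rw [e3, e4]; exact hmm) hi.symm hj.symm c1 c2 c3

theorem four_colours (a a' b b' : Fin 3) (h1 : a ≠ a') (h2 : b ≠ b') (h3 : a ≠ b) (h4 : a ≠ b')
    (h5 : a' ≠ b) (h6 : a' ≠ b') : False :=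
  h6 (fin3_third' a' b' a b h1.symm h5 h4.symm h2.symm h3)

theorem GG_not_colorable {s : ℕ} (hs : s % 2 = 1) (hs1 : 1 < s) (f : GV s → Fin 3) :
    ∃ u v, (GG s).Adj u v ∧ f u = f v := by
  by_contra hno
  push Not at hno
  let z : Fin s := ⟨0, by omega⟩
  by_cases hA : ∃ i j, f (core false i j) ≠ f (core false z z)
  · by_cases hB : ∃ i j, f (core true i j) ≠ f (core true z z)
    · obtain ⟨i, j, h1⟩ := hA
      obtain ⟨k, l, h2⟩ := hB
      have had : ∀ i j k l, f (core false i j) ≠ f (core true k l) := fun i j k l =>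
        hno _ _ (GG_adj_of_rel (by simp [GV.rel]) (by simp))
      exact four_colours _ _ _ _ h1 h2 (had _ _ _ _) (had _ _ _ _) (had _ _ _ _) (had _ _ _ _)
    · push Not at hB
      exact no_mono hs hs1 f hno false _ hB
  · push Not at hA
    exact no_mono hs hs1 f hno true _ hA

end H851VC
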