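import Pool.Agent.H851.VC.LA

/-!
Lower bound construction: deleting a core vertex makes the graph 3-colourable.
-/

namespace H851VC

open GV

theorem choose_cols : ∀ p0 p1 q0 q1 : Bool, (p0 && p1) = false → (q0 && q1) = false →
    ∃ A0 A1 k l : Fin 3, A0 ≠ 2 ∧ A1 ≠ 2 ∧ k ≠ 2 ∧ l ≠ 2 ∧ k ≠ l ∧
      ((p0 && q0) = false → k ≠ (if p0 then 0 else if q0 then 1 else A0)) ∧
      ((p1 && q1) = false → l ≠ (if p1 then 0 else if q1 then 1 else A1)) := by
  decide

/-- colour of the core on the side of the deleted vertex -/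
def cc {s : ℕ} (i0 j0 : Fin s) (A0 A1 : Fin 3) (i j : Fin s) : Fin 3 :=
  if i = i0 then 0 else if j = j0 then 1 else if i.val = 0 then A0 else A1

/-- colour of the odd cycle attached to the ports, special vertex `i1` -/
def cy {s : ℕ} (i1 i : Fin s) : Fin 3 :=
  if i = i1 then 2
  else if i.val < i1.val then (if (i.val + s - i1.val) % 2 = 0 then 0 else 1)
  else (if (i.val - i1.val) % 2 = 0 then 0 else 1)

/-- colour of the odd cycles on the other side -/
def cz {s : ℕ} (i : Fin s) : Fin 3 :=
  if i.val = 0 then 1 else if i.val % 2 = 0 then 0 else 2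

/-- the colouring of `GG s - core σ0 i0 j0` -/
def colr {s : ℕ} (σ0 : Bool) (i0 j0 : Fin s) (A0 A1 k l : Fin 3) : GV s → Fin 3
  | core σ i j => if σ = σ0 then cc i0 j0 A0 A1 i j else 2
  | port σ τ i =>
      if σ = σ0 then
        (if τ = true then (if i = j0 then 0 else 2) else (if i = i0 then 1 else 2))
      else (if i.val = 0 then 0 else 1)
  | cyc σ τ i => if σ = σ0 then cy (if τ = true then j0 else i0) i else cz i
  | hub σ τ => if σ = σ0 then (if τ = true then 1 else 0) else 2
  | mid σ τ => if σ = σ0 then (if τ = true then 0 else 1) else (if τ = true then l else k)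

theorem cy_ne {s : ℕ} (i1 i l : Fin s) (h : l.val = i.val + 1 ∨ (i.val = 0 ∧ l.val + 1 = s))
    (hs1 : 1 < s) : cy i1 i ≠ cy i1 l := by
  unfold cy
  have e1 : (i = i1) ↔ i.val = i1.val := Fin.ext_iff
  have e2 : (l = i1) ↔ l.val = i1.val := Fin.ext_iff
  rw [ite_congr (propext e1) (fun _ => rfl) (fun _ => rfl),
    ite_congr (propext e2) (fun _ => rfl) (fun _ => rfl)]
  have h1 := i.isLt
  have h2 := l.isLt
  have h3 := i1.isLt
  split_ifs <;> first | (exfalso; omega) | decide

theorem cz_ne {s : ℕ} (hs : s % 2 = 1) (i l : Fin s)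
    (h : l.val = i.val + 1 ∨ (i.val = 0 ∧ l.val + 1 = s)) (hs1 : 1 < s) : cz i ≠ cz l := by
  unfold cz
  have h1 := i.isLt
  have h2 := l.isLt
  split_ifs <;> first | (exfalso; omega) | decide

theorem colr_proper {s : ℕ} (hs : s % 2 = 1) (hs1 : 1 < s) (σ0 : Bool) (i0 j0 : Fin s)
    (A0 A1 k l : Fin 3) (hA0 : A0 ≠ 2) (hA1 : A1 ≠ 2) (hk : k ≠ 2) (hl : l ≠ 2) (hkl : k ≠ l)
    (hk' : ¬ (i0.val = 0 ∧ j0.val = 0) → ∀ i j : Fin s, i.val = 0 → j.val = 0 →
      k ≠ cc i0 j0 A0 A1 i j)
    (hl' : ¬ (i0.val = 1 ∧ j0.val = 1) → ∀ i j : Fin s, i.val = 1 → j.val = 1 →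
      l ≠ cc i0 j0 A0 A1 i j)
    (u v : GV s) (h : GV.rel u v) (hu : u ≠ core σ0 i0 j0) (hv : v ≠ core σ0 i0 j0) :
    colr σ0 i0 j0 A0 A1 k l u ≠ colr σ0 i0 j0 A0 A1 k l v := by
  have hcc2 : ∀ i j, cc i0 j0 A0 A1 i j ≠ 2 := by
    intro i j
    unfold cc
    split_ifs <;> first | decide | assumption
  cases u with
  | core σ i j =>
    cases v with
    | core σ' i' j' =>
      simp only [GV.rel] at h
      obtain ⟨rfl, rfl⟩ := h
      cases σ0
      · simp only [colr, if_true]
        exact hcc2 i j
      · simp only [colr, if_true]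
        exact (hcc2 i' j').symm
    | port σ' τ l' =>
      simp only [GV.rel] at h
      obtain ⟨rfl, h⟩ := h
      by_cases hσ : σ' = σ0
      · subst hσ
        rcases h with ⟨rfl, rfl⟩ | ⟨rfl, rfl⟩
        · simp only [colr, if_true]
          by_cases h1 : l' = i0
          · simp [cc, h1]
          · simp only [h1, if_false]
            exact hcc2 l' j
        · simp only [colr, if_true]
          by_cases h1 : l' = j0
          · have h2 : i ≠ i0 := by
              rintro rfl
              exact hu (by rw [h1])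
            simp [cc, h1, h2]
          · simp only [h1, if_false]
            exact hcc2 i l'
      · simp only [colr, hσ, if_false]
        split_ifs <;> decide
    | cyc σ' τ l' => simp [GV.rel] at h
    | hub σ' τ => simp [GV.rel] at h
    | mid σ' τ => simp [GV.rel] at h
  | port σ τ i =>
    cases v with
    | core σ' i' j' => simp [GV.rel] at h
    | port σ' τ' l' => simp [GV.rel] at h
    | cyc σ' τ' l' =>
      simp only [GV.rel] at h
      obtain ⟨rfl, rfl, rfl⟩ := h
      by_cases hσ : σ' = σ0
      · subst hσ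
        cases τ'
        · simp only [colr, if_true]
          unfold cy
          split_ifs <;> simp_all
        · simp only [colr, if_true]
          unfold cy
          split_ifs <;> simp_all
      · simp only [colr, hσ, if_false]
        unfold cz
        split_ifs <;> decide
    | hub σ' τ' => simp [GV.rel] at h
    | mid σ' τ' => simp [GV.rel] at h
  | cyc σ τ i =>
    cases v with
    | core σ' i' j' => simp [GV.rel] at h
    | port σ' τ' l' => simp [GV.rel] at h
    | cyc σ' τ' l' =>
      simp only [GV.rel] at h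
      obtain ⟨rfl, rfl, h⟩ := h
      by_cases hσ : σ' = σ0
      · simp only [colr, hσ, if_true]
        exact cy_ne _ i l' h hs1
      · simp only [colr, hσ, if_false]
        exact cz_ne hs i l' h hs1
    | hub σ' τ' => simp [GV.rel] at h
    | mid σ' τ' => simp [GV.rel] at h
  | hub σ τ =>
    cases v with
    | core σ' i' j' =>
      simp only [GV.rel] at h
      subst h
      by_cases hσ : σ = σ0
      · subst hσ
        have : ¬ (!σ) = σ := by cases σ <;> decide
        simp only [colr, if_true, this, if_false]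
        split_ifs <;> decide
      · have : (!σ) = σ0 := by cases σ <;> cases σ0 <;> simp_all
        simp only [colr, hσ, if_false, this, if_true]
        exact (hcc2 i' j').symm
    | port σ' τ' l' =>
      simp only [GV.rel] at h
      obtain ⟨rfl, rfl⟩ := h
      by_cases hσ : σ' = σ0
      · subst hσ
        simp only [colr, if_true]
        split_ifs <;> decide
      · simp only [colr, hσ, if_false]
        split_ifs <;> decide
    | cyc σ' τ' l' => simp [GV.rel] at h
    | hub σ' τ' => simp [GV.rel] at h
    | mid σ' τ' => simp [GV.rel] at h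
  | mid σ τ =>
    cases v with
    | core σ' i' j' =>
      simp only [GV.rel] at h
      obtain ⟨rfl, h⟩ := h
      by_cases hσ : σ = σ0
      · subst hσ
        have : ¬ (!σ) = σ := by cases σ <;> decide
        simp only [colr, if_true, this, if_false]
        split_ifs <;> decide
      · have hσ' : (!σ) = σ0 := by cases σ <;> cases σ0 <;> simp_all
        simp only [colr, hσ, if_false, hσ', if_true]
        rcases h with ⟨rfl, h1, h2⟩ | ⟨rfl, h1, h2⟩
        · refine hk' ?_ i' j' h1 h2
          rintro ⟨h3, h4⟩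
          apply hv
          rw [hσ']
          congr 1 <;> exact Fin.ext (by omega)
        · refine hl' ?_ i' j' h1 h2
          rintro ⟨h3, h4⟩
          apply hv
          rw [hσ']
          congr 1 <;> exact Fin.ext (by omega)
    | port σ' τ' l' => simp [GV.rel] at h
    | cyc σ' τ' l' => simp [GV.rel] at h
    | hub σ' τ' =>
      simp only [GV.rel] at h
      obtain ⟨rfl, rfl⟩ := h
      by_cases hσ : σ' = σ0
      · simp only [colr, hσ, if_true]
        split_ifs <;> decide
      · simp only [colr, hσ, if_false]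
        split_ifs <;> assumption
    | mid σ' τ' =>
      simp only [GV.rel] at h
      obtain ⟨rfl, rfl, rfl⟩ := h
      by_cases hσ : σ' = σ0
      · simp only [colr, hσ, if_true]
        decide
      · simp only [colr, hσ, if_false]
        simpa using hkl

theorem GG_core_critical {s : ℕ} (hs : s % 2 = 1) (hs1 : 1 < s) (σ0 : Bool) (i0 j0 : Fin s) :
    ∃ f : GV s → Fin 3, ∀ u v, u ≠ core σ0 i0 j0 → v ≠ core σ0 i0 j0 → (GG s).Adj u v →
      f u ≠ f v := by
  obtain ⟨A0, A1, k, l, hA0, hA1, hk, hl, hkl, hk', hl'⟩ := choose_cols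
    (decide (i0.val = 0)) (decide (i0.val = 1)) (decide (j0.val = 0)) (decide (j0.val = 1))
    (by
      by_cases h : i0.val = 0
      · simp [h]
      · simp [h])
    (by
      by_cases h : j0.val = 0
      · simp [h]
      · simp [h])
  have key := colr_proper hs hs1 σ0 i0 j0 A0 A1 k l hA0 hA1 hk hl hkl ?_ ?_
  · refine ⟨colr σ0 i0 j0 A0 A1 k l, fun u v hu hv h => ?_⟩
    rw [GG, SimpleGraph.fromRel_adj] at h
    rcases h.2 with h | h
    · exact key u v h hu hv
    · exact (key v u h hv hu).symm
  · intro hne i j hi hj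
    have h1 := hk' (by simpa using hne)
    unfold cc
    have e1 : (i = i0) ↔ i0.val = 0 := by rw [Fin.ext_iff]; omega
    have e2 : (j = j0) ↔ j0.val = 0 := by rw [Fin.ext_iff]; omega
    rw [ite_congr (propext e1) (fun _ => rfl) (fun _ => rfl),
      ite_congr (propext e2) (fun _ => rfl) (fun _ => rfl)]
    simpa [hi] using h1
  · intro hne i j hi hj
    have h1 := hl' (by simpa using hne)
    unfold cc
    have e1 : (i = i0) ↔ i0.val = 1 := by rw [Fin.ext_iff]; omega
    have e2 : (j = j0) ↔ j0.val = 1 := by rw [Fin.ext_iff]; omega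
    rw [ite_congr (propext e1) (fun _ => rfl) (fun _ => rfl),
      ite_congr (propext e2) (fun _ => rfl) (fun _ => rfl)]
    simpa [hi] using h1

end H851VC
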