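import Pool.Agent.H851.VC.UF
import Pool.Agent.H851.VC.LB

/-!
Lower bound: critical subgraphs, extension of critical graphs by an odd number of vertices, and the
asymptotic lower bound.
-/

open Finset
open scoped Classical

namespace H851VC

/-- `G` is not 3-colourable, but becomes 3-colourable when any vertex is deleted -/
def Crit {V : Type*} (G : SimpleGraph V) : Prop :=
  (∀ f : V → Fin 3, ∃ u w, G.Adj u w ∧ f u = f w) ∧
    ∀ v, ∃ f : V → Fin 3, ∀ u w, u ≠ v → w ≠ v → G.Adj u w → f u ≠ f w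

/-- there is a critical graph on `n` vertices with at least `m` ordered adjacent pairs -/
def Has (n m : ℕ) : Prop := ∃ G : SimpleGraph (Fin n), Crit G ∧ m ≤ e2 G Finset.univ

theorem has_of {V : Type*} [Fintype V] (G : SimpleGraph V) (hG : Crit G) (m : ℕ)
    (hm : m ≤ e2 G Finset.univ) : Has (Fintype.card V) m := by
  let e : V ≃ Fin (Fintype.card V) := Fintype.equivFin V
  refine ⟨G.comap e.symm, ⟨?_, ?_⟩, ?_⟩
  · intro f
    obtain ⟨u, w, h, he⟩ := hG.1 (fun v => f (e v))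
    exact ⟨e u, e w, by simpa using h, he⟩
  · intro v
    obtain ⟨f, hf⟩ := hG.2 (e.symm v)
    refine ⟨fun x => f (e.symm x), fun u w hu hw h => ?_⟩
    exact hf _ _ (fun h' => hu (e.symm.injective h')) (fun h' => hw (e.symm.injective h')) h
  · refine hm.trans (le_of_eq ?_)
    rw [e2_eq, e2_eq]
    apply Finset.card_bij (fun p _ => (e p.1, e p.2))
    · intro p hp
      simp only [Finset.mem_filter, Finset.mem_product, Finset.mem_univ, true_and] at hp ⊢
      simpa using hp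
    · rintro ⟨a, b⟩ _ ⟨a', b'⟩ _ h
      simpa using h
    · rintro ⟨a, b⟩ hp
      simp only [Finset.mem_filter, Finset.mem_product, Finset.mem_univ, true_and] at hp
      refine ⟨(e.symm a, e.symm b), ?_, by simp⟩
      simp only [Finset.mem_filter, Finset.mem_product, Finset.mem_univ, true_and]
      exact hp

/-- existence of a critical induced subgraph containing all critical vertices -/
theorem exists_crit_sub {V : Type*} [Fintype V] (G : SimpleGraph V)
    (hG : ∀ f : V → Fin 3, ∃ u w, G.Adj u w ∧ f u = f w) :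
    ∃ W : Finset V, Crit (G.comap (Subtype.val : {x // x ∈ W} → V)) ∧
      ∀ v, (∃ f : V → Fin 3, ∀ u w, u ≠ v → w ≠ v → G.Adj u w → f u ≠ f w) → v ∈ W := by
  set F : Finset (Finset V) := Finset.univ.filter
    (fun W => ∀ f : V → Fin 3, ∃ u ∈ W, ∃ w ∈ W, G.Adj u w ∧ f u = f w) with hF
  have hne : F.Nonempty := by
    refine ⟨Finset.univ, ?_⟩
    rw [hF, Finset.mem_filter]
    refine ⟨Finset.mem_univ _, fun f => ?_⟩
    obtain ⟨u, w, h⟩ := hG f
    exact ⟨u, Finset.mem_univ _, w, Finset.mem_univ _, h⟩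
  obtain ⟨W, hW, hmin⟩ := Finset.exists_min_image F Finset.card hne
  have hW' := (Finset.mem_filter.1 hW).2
  refine ⟨W, ⟨?_, ?_⟩, ?_⟩
  · intro f
    obtain ⟨u, hu, w, hw, h, he⟩ := hW' (fun x => if h : x ∈ W then f ⟨x, h⟩ else 0)
    refine ⟨⟨u, hu⟩, ⟨w, hw⟩, h, ?_⟩
    simpa [hu, hw] using he
  · rintro ⟨v, hv⟩
    by_contra hno
    push Not at hno
    have : W.erase v ∈ F := by
      rw [hF, Finset.mem_filter]
      refine ⟨Finset.mem_univ _, fun f => ?_⟩
      obtain ⟨⟨u, hu⟩, ⟨w, hw⟩, h1, h2, h3, h4⟩ := hno (fun x => f x)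
      exact ⟨u, Finset.mem_erase.2 ⟨fun h => h1 (Subtype.ext h), hu⟩, w,
        Finset.mem_erase.2 ⟨fun h => h2 (Subtype.ext h), hw⟩, h3, h4⟩
    have h1 := hmin _ this
    have h2 := Finset.card_erase_lt_of_mem hv
    omega
  · rintro v ⟨f, hf⟩
    by_contra hv
    obtain ⟨u, hu, w, hw, h, he⟩ := hW' f
    exact hf u w (fun h => hv (h ▸ hu)) (fun h => hv (h ▸ hw)) h he

/-- `GV s` as a sum type -/
def GV.equiv (s : ℕ) : GV s ≃ (Bool × Fin s × Fin s) ⊕ (Bool × Bool × Fin s) ⊕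
    (Bool × Bool × Fin s) ⊕ (Bool × Bool) ⊕ (Bool × Bool) where
  toFun
    | .core σ i j => Sum.inl (σ, i, j)
    | .port σ τ i => Sum.inr (Sum.inl (σ, τ, i))
    | .cyc σ τ i => Sum.inr (Sum.inr (Sum.inl (σ, τ, i)))
    | .hub σ τ => Sum.inr (Sum.inr (Sum.inr (Sum.inl (σ, τ))))
    | .mid σ τ => Sum.inr (Sum.inr (Sum.inr (Sum.inr (σ, τ))))
  invFun
    | Sum.inl (σ, i, j) => .core σ i j
    | Sum.inr (Sum.inl (σ, τ, i)) => .port σ τ i
    | Sum.inr (Sum.inr (Sum.inl (σ, τ, i))) => .cyc σ τ i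
    | Sum.inr (Sum.inr (Sum.inr (Sum.inl (σ, τ)))) => .hub σ τ
    | Sum.inr (Sum.inr (Sum.inr (Sum.inr (σ, τ)))) => .mid σ τ
  left_inv := by rintro (_ | _ | _ | _ | _) <;> rfl
  right_inv := by rintro (_ | _ | _ | _ | _) <;> rfl

instance (s : ℕ) : Fintype (GV s) := Fintype.ofEquiv _ (GV.equiv s).symm

theorem card_GV (s : ℕ) : Fintype.card (GV s) = 2 * s ^ 2 + 8 * s + 8 := by
  rw [Fintype.card_congr (GV.equiv s)]
  simp only [Fintype.card_sum, Fintype.card_prod, Fintype.card_bool, Fintype.card_fin]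
  ring

/-- a critical graph whose order is between `2 s^2` and `2 s^2 + 8 s + 8`, with many edges -/
theorem has_core {s : ℕ} (hs : s % 2 = 1) (hs1 : 1 < s) :
    ∃ n, n ≤ 2 * s ^ 2 + 8 * s + 8 ∧ Has n (2 * s ^ 4) := by
  obtain ⟨W, hW, hmem⟩ := exists_crit_sub (GG s) (GG_not_colorable hs hs1)
  have hcore : ∀ σ i j, GV.core σ i j ∈ W := fun σ i j => hmem _ (GG_core_critical hs hs1 σ i j)
  refine ⟨Fintype.card {x // x ∈ W}, ?_, ?_⟩
  · rw [Fintype.card_coe, ← card_GV]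
    exact Finset.card_le_univ _
  · apply has_of _ hW
    rw [e2_eq]
    have h1 : (Finset.univ : Finset (Bool × (Fin s × Fin s) × (Fin s × Fin s))).card =
        2 * s ^ 4 := by
      simp only [Finset.card_univ, Fintype.card_prod, Fintype.card_bool, Fintype.card_fin]
      ring
    rw [← h1]
    apply Finset.card_le_card_of_injOn
      (fun q => (⟨GV.core q.1 q.2.1.1 q.2.1.2, hcore _ _ _⟩,
        ⟨GV.core (!q.1) q.2.2.1 q.2.2.2, hcore _ _ _⟩))
    · rintro ⟨σ, ⟨i, j⟩, ⟨k, l⟩⟩ _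
      simp only [Finset.coe_filter, Finset.mem_product, Finset.mem_univ, true_and, Set.mem_ofPred_eq,
        SimpleGraph.comap_adj]
      cases σ
      · exact GG_adj_of_rel (by simp [GV.rel]) (by simp)
      · exact (GG_adj_of_rel (by simp [GV.rel]) (by simp)).symm
    · rintro ⟨σ, ⟨i, j⟩, ⟨k, l⟩⟩ _ ⟨σ', ⟨i', j'⟩, ⟨k', l'⟩⟩ _ h
      simp only [Prod.mk.injEq, Subtype.mk.injEq, GV.core.injEq] at h ⊢
      tauto

end H851VC
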