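import Pool.Agent.H851.VC.LC

/-!
Extension of a critical graph by `2 t + 1` vertices (Ore composition with an odd wheel).
-/

open Finset
open scoped Classical

namespace H851VC

section Ext

variable {V : Type*} (G : SimpleGraph V) (x : V) (c : V → Fin 3) (t : ℕ)

/-- one-directional adjacency of the extended graph -/
def xrel : V ⊕ Fin (2 * t + 1) → V ⊕ Fin (2 * t + 1) → Prop
  | Sum.inl a, Sum.inl b => G.Adj a b ∧ ¬ (a = x ∧ c b = 0) ∧ ¬ (b = x ∧ c a = 0)
  | Sum.inr j, Sum.inl b => (j.val = 0 ∧ G.Adj x b ∧ c b = 0) ∨ (b = x ∧ (j.val = 1 ∨ j.val = 2 * t))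
  | Sum.inr i, Sum.inr j => (i.val = 0 ∧ 1 ≤ j.val) ∨ (1 ≤ i.val ∧ j.val = i.val + 1)
  | Sum.inl _, Sum.inr _ => False

/-- the extended graph -/
def XG : SimpleGraph (V ⊕ Fin (2 * t + 1)) := SimpleGraph.fromRel (xrel G x c t)

theorem XG_adj_of_rel {u v : V ⊕ Fin (2 * t + 1)} (h : xrel G x c t u v) (hne : u ≠ v) :
    (XG G x c t).Adj u v := by
  rw [XG, SimpleGraph.fromRel_adj]
  exact ⟨hne, Or.inl h⟩

theorem XG_not_colorable (ht : 1 ≤ t) (hG : ∀ f : V → Fin 3, ∃ u w, G.Adj u w ∧ f u = f w)
    (f : V ⊕ Fin (2 * t + 1) → Fin 3) : ∃ u w, (XG G x c t).Adj u w ∧ f u = f w := by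
  by_contra hno
  push Not at hno
  have hf : ∀ u v, xrel G x c t u v → u ≠ v → f u ≠ f v := fun u v h hne =>
    hno u v (XG_adj_of_rel G x c t h hne)
  set u : Fin 3 := f (Sum.inr ⟨0, by omega⟩) with hu
  set g : ℕ → Fin 3 := fun j => if h : j < 2 * t + 1 then f (Sum.inr ⟨j, h⟩) else 0 with hg
  have hgv : ∀ j (h : j < 2 * t + 1), g j = f (Sum.inr ⟨j, h⟩) := fun j h => by
    simp only [hg]; rw [dif_pos h]
  have h1 : ∀ j, 1 ≤ j → j < 2 * t + 1 → g j ≠ u := by
    intro j hj hj'
    rw [hgv j hj', hu]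
    refine (hf _ _ ?_ ?_).symm
    · simp only [xrel]; left; exact ⟨trivial, hj⟩
    · simp only [ne_eq, Sum.inr.injEq, Fin.mk.injEq]; omega
  have h2 : ∀ j, 1 ≤ j → j + 1 < 2 * t + 1 → g j ≠ g (j + 1) := by
    intro j hj hj'
    rw [hgv j (by omega), hgv (j + 1) hj']
    refine hf _ _ ?_ ?_
    · simp only [xrel]; right; exact ⟨hj, trivial⟩
    · simp only [ne_eq, Sum.inr.injEq, Fin.mk.injEq]; omega
  have h3 : ∀ m, 2 * m + 2 < 2 * t + 1 → g (2 * m + 2) = g 2 := by
    intro m
    induction m with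
    | zero => intro _; rfl
    | succ m ih =>
      intro h
      rw [← ih (by omega)]
      have a1 : 2 * (m + 1) + 2 = (2 * m + 3) + 1 := by ring
      rw [a1]
      exact fin3_third _ _ u (g (2 * m + 3)) (h1 _ (by omega) (by omega))
        (h2 (2 * m + 3) (by omega) (by omega)).symm (h1 _ (by omega) (by omega))
        (h2 (2 * m + 2) (by omega) (by omega)) (h1 _ (by omega) (by omega)).symm
  have h4 : g (2 * t) = g 2 := by
    have := h3 (t - 1) (by omega)
    rwa [show 2 * (t - 1) + 2 = 2 * t by omega] at this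
  have h5 : f (Sum.inl x) ≠ g 1 := by
    rw [hgv 1 (by omega)]
    refine (hf _ _ ?_ (by simp)).symm
    simp [xrel]
  have h6 : f (Sum.inl x) ≠ g (2 * t) := by
    rw [hgv (2 * t) (by omega)]
    refine (hf _ _ ?_ (by simp)).symm
    simp [xrel]
  have h7 : f (Sum.inl x) = u := by
    rw [h4] at h6
    exact fin3_third _ _ (g 1) (g 2) h5 h6 (h1 1 le_rfl (by omega)).symm
      (h1 2 (by omega) (by omega)).symm (h2 1 le_rfl (by omega))
  obtain ⟨a, b, hab, he⟩ := hG (fun v => f (Sum.inl v))
  by_cases c1 : a = x ∧ c b = 0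
  · obtain ⟨rfl, hcb⟩ := c1
    have : u ≠ f (Sum.inl b) := by
      rw [hu]
      refine hf _ _ ?_ (by simp)
      simp only [xrel]; left; exact ⟨trivial, hab, hcb⟩
    exact this (h7.symm.trans he)
  · by_cases c2 : b = x ∧ c a = 0
    · obtain ⟨rfl, hca⟩ := c2
      have : u ≠ f (Sum.inl a) := by
        rw [hu]
        refine hf _ _ ?_ (by simp)
        simp only [xrel]; left; exact ⟨trivial, hab.symm, hca⟩
      exact this (h7.symm.trans he.symm)
    · exact hf (Sum.inl a) (Sum.inl b) ⟨hab, c1, c2⟩ (fun h => hab.ne (Sum.inl.inj h)) he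

theorem XG_col (hcx : ∀ u w, u ≠ x → w ≠ x → G.Adj u w → c u ≠ c w) (ht : 1 ≤ t)
    (hG : ∀ v, ∃ f : V → Fin 3, ∀ u w, u ≠ v → w ≠ v → G.Adj u w → f u ≠ f w)
    (v : V ⊕ Fin (2 * t + 1)) : ∃ f : V ⊕ Fin (2 * t + 1) → Fin 3,
      ∀ u w, u ≠ v → w ≠ v → (XG G x c t).Adj u w → f u ≠ f w := by
  suffices h : ∃ f : V ⊕ Fin (2 * t + 1) → Fin 3,
      ∀ u w, u ≠ v → w ≠ v → xrel G x c t u w → f u ≠ f w by
    obtain ⟨f, hf⟩ := h
    refine ⟨f, fun u w hu hw h => ?_⟩
    rw [XG, SimpleGraph.fromRel_adj] at h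
    rcases h.2 with h | h
    · exact hf u w hu hw h
    · exact (hf w u hw hu h).symm
  rcases v with a | j0
  · by_cases hax : a = x
    · subst hax
      refine ⟨Sum.elim c (fun j => if j.val = 0 then 1 else if j.val % 2 = 1 then 0 else 2), ?_⟩
      rintro (u | i) (w | j) hu hw h
      · exact hcx u w (fun h => hu (by rw [h])) (fun h => hw (by rw [h])) h.1
      · exact h.elim
      · simp only [xrel] at h
        simp only [Sum.elim_inl, Sum.elim_inr]
        rcases h with ⟨h1, _, h3⟩ | ⟨h1, _⟩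
        · rw [h1, h3]; simp
        · exact absurd (by rw [h1]) hw
      · simp only [xrel] at h
        simp only [Sum.elim_inr]
        split_ifs <;> first | (exfalso; omega) | decide
    · obtain ⟨h0, hh⟩ := hG a
      have d1 : ∀ z : Fin 3, z ≠ z + 1 := by decide
      have d2 : ∀ z : Fin 3, z ≠ z + 2 := by decide
      have d3 : ∀ z : Fin 3, z + 1 ≠ z + 2 := by decide
      refine ⟨Sum.elim h0
        (fun j => if j.val = 0 then h0 x else if j.val % 2 = 1 then h0 x + 1 else h0 x + 2), ?_⟩
      rintro (u | i) (w | j) hu hw h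
      · exact hh u w (fun h => hu (by rw [h])) (fun h => hw (by rw [h])) h.1
      · exact h.elim
      · simp only [xrel] at h
        simp only [Sum.elim_inl, Sum.elim_inr]
        rcases h with ⟨h1, h2, h3⟩ | ⟨h1, h2⟩
        · rw [h1]
          simp only [if_true]
          exact hh x w (fun h => hax h.symm) (fun h => hw (by rw [h])) h2
        · rw [h1]
          split_ifs
          · exfalso; omega
          · exact (d1 _).symm
          · exact (d2 _).symm
      · simp only [xrel] at h
        simp only [Sum.elim_inr]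
        split_ifs <;>
          first | (exfalso; omega) | exact d1 _ | exact d2 _ | exact d3 _ | exact (d3 _).symm
  · by_cases hj0 : j0.val = 0
    · refine ⟨Sum.elim (fun b => if b = x then 0 else c b)
        (fun j => if j.val % 2 = 1 then 1 else 2), ?_⟩
      rintro (u | i) (w | j) hu hw h
      · simp only [Sum.elim_inl]
        obtain ⟨h1, h2, h3⟩ := h
        by_cases hux : u = x
        · have hwx : w ≠ x := fun h' => h1.ne (hux.trans h'.symm)
          rw [if_pos hux, if_neg hwx]
          exact fun h' => h2 ⟨hux, h'.symm⟩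
        · by_cases hwx : w = x
          · rw [if_neg hux, if_pos hwx]
            exact fun h' => h3 ⟨hwx, h'⟩
          · rw [if_neg hux, if_neg hwx]
            exact hcx u w hux hwx h1
      · exact h.elim
      · simp only [xrel] at h
        have hi0 : i.val ≠ 0 := fun h' => hu (by congr 1; exact Fin.ext (h'.trans hj0.symm))
        rcases h with ⟨h1, _, _⟩ | ⟨h1, _⟩
        · exact absurd h1 hi0
        · simp only [Sum.elim_inl, Sum.elim_inr]
          rw [if_pos h1]
          split_ifs <;> decide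
      · simp only [xrel] at h
        have hi0 : i.val ≠ 0 := fun h' => hu (by congr 1; exact Fin.ext (h'.trans hj0.symm))
        have hj0' : j.val ≠ 0 := fun h' => hw (by congr 1; exact Fin.ext (h'.trans hj0.symm))
        simp only [Sum.elim_inr]
        split_ifs <;> first | (exfalso; omega) | decide
    · refine ⟨Sum.elim (fun b => if b = x then 0 else c b)
        (fun j => if j.val = 0 then 1 else if j.val < j0.val then
          (if j.val % 2 = 1 then 2 else 0) else (if j.val % 2 = 0 then 2 else 0)), ?_⟩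
      rintro (u | i) (w | j) hu hw h
      · simp only [Sum.elim_inl]
        obtain ⟨h1, h2, h3⟩ := h
        by_cases hux : u = x
        · have hwx : w ≠ x := fun h' => h1.ne (hux.trans h'.symm)
          rw [if_pos hux, if_neg hwx]
          exact fun h' => h2 ⟨hux, h'.symm⟩
        · by_cases hwx : w = x
          · rw [if_neg hux, if_pos hwx]
            exact fun h' => h3 ⟨hwx, h'⟩
          · rw [if_neg hux, if_neg hwx]
            exact hcx u w hux hwx h1
      · exact h.elim
      · simp only [xrel] at h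
        have hij : i.val ≠ j0.val := fun h' => hu (by congr 1; exact Fin.ext h')
        have hlt := j0.isLt
        simp only [Sum.elim_inl, Sum.elim_inr]
        rcases h with ⟨h1, h2, h3⟩ | ⟨h1, h2⟩
        · have hwx : w ≠ x := h2.ne'
          rw [if_pos h1, if_neg hwx, h3]
          decide
        · rw [if_pos h1]
          split_ifs <;> first | (exfalso; omega) | decide
      · simp only [xrel] at h
        have hij : i.val ≠ j0.val := fun h' => hu (by congr 1; exact Fin.ext h')
        have hjj : j.val ≠ j0.val := fun h' => hw (by congr 1; exact Fin.ext h')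
        simp only [Sum.elim_inr]
        split_ifs <;> first | (exfalso; omega) | decide

end Ext

theorem has_ext {n m : ℕ} (hn : 0 < n) (h : Has n m) (t : ℕ) (ht : 1 ≤ t) :
    Has (n + (2 * t + 1)) m := by
  obtain ⟨G, hG, hm⟩ := h
  let x : Fin n := ⟨0, hn⟩
  obtain ⟨c, hc⟩ := hG.2 x
  have hcard : n + (2 * t + 1) = Fintype.card (Fin n ⊕ Fin (2 * t + 1)) := by
    rw [Fintype.card_sum, Fintype.card_fin, Fintype.card_fin]
  rw [hcard]
  refine has_of (XG G x c t) ⟨XG_not_colorable G x c t ht hG.1, XG_col G x c t hc ht hG.2⟩ m ?_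
  refine hm.trans ?_
  rw [e2_eq, e2_eq]
  apply Finset.card_le_card_of_injOn
    (fun p => ((if p.1 = x ∧ c p.2 = 0 then Sum.inr ⟨0, by omega⟩ else Sum.inl p.1),
      (if p.2 = x ∧ c p.1 = 0 then Sum.inr ⟨0, by omega⟩ else Sum.inl p.2)))
  · rintro ⟨a, b⟩ hp
    simp only [Finset.coe_filter, Finset.mem_product, Finset.mem_univ, true_and,
      Set.mem_ofPred_eq] at hp ⊢
    by_cases c1 : a = x ∧ c b = 0
    · have c2 : ¬ (b = x ∧ c a = 0) := fun h => hp.ne (c1.1.trans h.1.symm)
      rw [if_pos c1, if_neg c2]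
      apply XG_adj_of_rel
      · simp only [xrel]; left
        exact ⟨trivial, by rw [← c1.1]; exact hp, c1.2⟩
      · simp
    · by_cases c2 : b = x ∧ c a = 0
      · rw [if_neg c1, if_pos c2]
        refine (XG_adj_of_rel G x c t ?_ ?_).symm
        · simp only [xrel]; left
          exact ⟨trivial, by rw [← c2.1]; exact hp.symm, c2.2⟩
        · simp
      · rw [if_neg c1, if_neg c2]
        exact XG_adj_of_rel G x c t ⟨hp, c1, c2⟩ (fun h => hp.ne (Sum.inl.inj h))
  · -- injectivity
    have key : ∀ (P Q : Prop) [Decidable P] [Decidable Q] (a b : Fin n), (P → a = x) → (Q → b = x) →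
        (if P then (Sum.inr ⟨0, by omega⟩ : Fin n ⊕ Fin (2 * t + 1)) else Sum.inl a) =
        (if Q then (Sum.inr ⟨0, by omega⟩ : Fin n ⊕ Fin (2 * t + 1)) else Sum.inl b) → a = b := by
      intro P Q _ _ a b hP hQ h
      by_cases hp : P <;> by_cases hq : Q
      · rw [hP hp, hQ hq]
      · simp [hp, hq] at h
      · simp [hp, hq] at h
      · simpa [hp, hq] using h
    rintro ⟨a, b⟩ _ ⟨a', b'⟩ _ h
    simp only [Prod.mk.injEq] at h ⊢
    exact ⟨key _ _ a a' (fun h => h.1) (fun h => h.1) h.1,
      key _ _ b b' (fun h => h.1) (fun h => h.1) h.2⟩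

theorem has_add {n m : ℕ} (hn : 0 < n) (h : Has n m) (d : ℕ) (hd : 5 ≤ d) : Has (n + d) m := by
  rcases Nat.even_or_odd' d with ⟨k, rfl | rfl⟩
  · have h1 := has_ext hn h 1 le_rfl
    have h2 := has_ext (by omega) h1 (k - 2) (by omega)
    have : n + (2 * 1 + 1) + (2 * (k - 2) + 1) = n + 2 * k := by omega
    rwa [this] at h2
  · exact has_ext hn h k (by omega)

end H851VC
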