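import Pool.Agent.H851.VC.LD

/-!
The asymptotic lower bound, and the translation between `Crit` and chromatic numbers.
-/

open Finset
open scoped Classical

namespace H851VC

/-- for every `n ≥ 55` there is an odd `s` with `2 s ^ 2 + 8 s + 13 ≤ n < 2 s ^ 2 + 16 s + 37`
and a critical graph on `n` vertices with `2 s ^ 4` ordered adjacent pairs -/
theorem has_all (n : ℕ) (hn : 55 ≤ n) :
    ∃ s : ℕ, 1 < s ∧ 2 * s ^ 2 + 8 * s + 13 ≤ n ∧ n < 2 * s ^ 2 + 16 * s + 37 ∧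
      Has n (2 * s ^ 4) := by
  set P : ℕ → Prop := fun q => 2 * (2 * q + 1) ^ 2 + 8 * (2 * q + 1) + 13 ≤ n with hP
  set q := Nat.findGreatest P n with hq
  have hP1 : P 1 := by simp only [hP]; omega
  have hq1 : 1 ≤ q := Nat.le_findGreatest (by omega) hP1
  have hPq : P q := Nat.findGreatest_spec (m := 1) (by omega) hP1
  have hqn : q + 1 ≤ n := by
    have : q + 1 ≤ 2 * (2 * q + 1) ^ 2 + 8 * (2 * q + 1) + 13 := by nlinarith
    exact this.trans hPq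
  have hPq' : ¬ P (q + 1) := Nat.findGreatest_is_greatest (Nat.lt_succ_self _) hqn
  simp only [hP] at hPq hPq'
  refine ⟨2 * q + 1, by omega, hPq, by nlinarith, ?_⟩
  obtain ⟨n1, hn1, hhas⟩ := has_core (s := 2 * q + 1) (by omega) (by omega)
  have hpos : 0 < n1 := by
    obtain ⟨G, hG, _⟩ := hhas
    obtain ⟨u, _⟩ := hG.1 (fun _ => 0)
    exact Fin.pos u
  have := has_add hpos hhas (n - n1) (by omega)
  rwa [show n1 + (n - n1) = n by omega] at this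

theorem lower_arith (n s : ℕ) (h : n < 2 * s ^ 2 + 16 * s + 37) (h' : 2 * s ^ 2 + 8 * s + 13 ≤ n) :
    (n : ℝ) ^ 2 / 4 - 25 * (n : ℝ) ^ ((3 : ℝ) / 2) ≤ (s : ℝ) ^ 4 := by
  have hnr : (n : ℝ) ≤ 2 * (s : ℝ) ^ 2 + 16 * s + 37 := by exact_mod_cast h.le
  have hnr' : 2 * (s : ℝ) ^ 2 + 8 * s + 13 ≤ n := by exact_mod_cast h'
  have hs0 : (0 : ℝ) ≤ s := by positivity
  have hn0 : (0 : ℝ) ≤ n := by positivity
  set r : ℝ := Real.sqrt n with hr
  have hr0 : 0 ≤ r := Real.sqrt_nonneg _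
  have hrr : r * r = n := Real.mul_self_sqrt hn0
  have h32 : (n : ℝ) ^ ((3 : ℝ) / 2) = n * r := by
    rw [show (3 : ℝ) / 2 = 1 + 1 / 2 by norm_num, Real.rpow_add' hn0 (by norm_num), Real.rpow_one,
      hr, Real.sqrt_eq_rpow]
  rw [h32]
  have hsr : (s : ℝ) ≤ r := by
    apply Real.le_sqrt_of_sq_le
    nlinarith
  have hr1 : 1 ≤ r := by
    rw [hr]; apply Real.one_le_sqrt.2; nlinarith
  have h5 : (n : ℝ) - 53 * r ≤ 2 * (s : ℝ) ^ 2 := by nlinarith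
  by_cases hneg : (n : ℝ) - 53 * r ≤ 0
  · have : (n : ℝ) ^ 2 / 4 ≤ 25 * (n * r) := by nlinarith
    have h4 : (0 : ℝ) ≤ (s : ℝ) ^ 4 := by positivity
    linarith
  · push Not at hneg
    have h6 : ((n : ℝ) - 53 * r) ^ 2 ≤ (2 * (s : ℝ) ^ 2) ^ 2 :=
      pow_le_pow_left₀ hneg.le h5 2
    nlinarith

end H851VC
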