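import Mathlib

/-!
Upper bound for the number of edges of a vertex-critical 4-chromatic graph: counting tools and the
abstract setting.
-/

open Finset

namespace H851VC

theorem fin3_third (x y a b : Fin 3) (hxa : x ≠ a) (hxb : x ≠ b) (hya : y ≠ a) (hyb : y ≠ b)
    (hab : a ≠ b) : x = y := by
  revert x y a b; decide

theorem fin3_no4 (z a b t : Fin 3) (hab : a ≠ b) (hta : t ≠ a) (htb : t ≠ b)
    (hza : z ≠ a) (hzb : z ≠ b) (hzt : z ≠ t) : False :=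
  hzt (fin3_third z t a b hza hzb hta htb hab)

open scoped Classical

section Count

variable {V : Type*} (G : SimpleGraph V)

/-- number of neighbours of `v` inside `H` -/
noncomputable def dg (H : Finset V) (v : V) : ℕ := (H.filter (fun w => G.Adj v w)).card

/-- number of ordered adjacent pairs inside `H` -/
noncomputable def e2 (H : Finset V) : ℕ := ∑ v ∈ H, dg G H v

theorem sum_dg (S H : Finset V) :
    ∑ w ∈ S, dg G H w = ∑ z ∈ H, (S.filter (fun w => G.Adj z w)).card := by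
  unfold dg
  simp_rw [Finset.card_filter]
  rw [Finset.sum_comm]
  refine Finset.sum_congr rfl (fun z _ => Finset.sum_congr rfl (fun w _ => ?_))
  simp [G.adj_comm]

theorem dg_mono {H H' : Finset V} (h : H ⊆ H') (v : V) : dg G H v ≤ dg G H' v :=
  Finset.card_le_card (Finset.filter_subset_filter _ h)

theorem dg_le (H : Finset V) (v : V) : dg G H v ≤ H.card := Finset.card_filter_le _ _

theorem dg_union {H S : Finset V} (hS : S ⊆ H) (v : V) :
    dg G H v = dg G (H \ S) v + dg G S v := by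
  unfold dg
  rw [← Finset.card_union_of_disjoint]
  · congr 1
    rw [← Finset.filter_union, Finset.sdiff_union_of_subset hS]
  · exact Finset.disjoint_filter_filter Finset.sdiff_disjoint

/-- Removing `S` from `H` destroys at most `2 * ∑_{w ∈ S} dg H w` ordered adjacent pairs. -/
theorem e2_sdiff (H S : Finset V) (hS : S ⊆ H) :
    e2 G H ≤ e2 G (H \ S) + 2 * ∑ w ∈ S, dg G H w := by
  unfold e2
  have h1 : ∑ v ∈ H, dg G H v = ∑ v ∈ H \ S, dg G H v + ∑ v ∈ S, dg G H v :=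
    (Finset.sum_sdiff hS).symm
  have h3 : ∑ v ∈ H \ S, dg G H v = ∑ v ∈ H \ S, dg G (H \ S) v + ∑ v ∈ H \ S, dg G S v := by
    rw [← Finset.sum_add_distrib]
    exact Finset.sum_congr rfl (fun v _ => dg_union G hS v)
  have h4 : ∑ v ∈ H \ S, dg G S v ≤ ∑ w ∈ S, dg G H w := by
    rw [sum_dg G (H \ S) S]
    refine Finset.sum_le_sum (fun z _ => ?_)
    exact Finset.card_le_card (Finset.filter_subset_filter _ Finset.sdiff_subset)
  omega

end Count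

/-- The abstract situation: `c v` is a proper 3-colouring of `G - v`; `D` is split into classes by
`ρ : D → U`, every `c v` with `v ∉ U` is constant (`= c v (ρ u)`) on each class, and `r x` is a
neighbour of `x` which has the colour of the class of `x` in `c x`. -/
structure Setup {V : Type*} (G : SimpleGraph V) where
  c : V → V → Fin 3
  hc : ∀ v u w, u ≠ v → w ≠ v → G.Adj u w → c v u ≠ c v w
  U : Finset V
  D : Finset V
  N : Finset V
  ρ : V → V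
  r : V → V
  hDU : ∀ x ∈ D, x ∉ U
  hDN : ∀ x ∈ D, x ∉ N
  hρ : ∀ x ∈ D, ρ x ∈ U
  hM : ∀ v, v ∉ U → ∀ u ∈ D, u ≠ v → c v u = c v (ρ u)
  hr : ∀ x ∈ D, r x ∈ N
  hadj : ∀ x ∈ D, G.Adj x (r x)
  hR : ∀ x ∈ D, c x (r x) = c x (ρ x)
  hInd : ∀ x ∈ D, ∀ x' ∈ D, ρ x = ρ x' → ¬ G.Adj x x'
  hK4 : ∀ a b c d, G.Adj a b → G.Adj a c → G.Adj a d → G.Adj b c → G.Adj b d → G.Adj c d → False

namespace Setup

variable {V : Type*} {G : SimpleGraph V} (S : Setup G)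

theorem rne {x x' : V} (hx : x ∈ S.D) (hx' : x' ∈ S.D) : S.r x ≠ x' := by
  intro h
  exact S.hDN x' hx' (h ▸ S.hr x hx)

theorem B1 {x x' : V} (hx : x ∈ S.D) (hx' : x' ∈ S.D) (hne : x' ≠ x) (hr : S.r x' = S.r x) :
    S.c x (S.ρ x') ≠ S.c x (S.ρ x) := by
  rw [← S.hM x (S.hDU x hx) x' hx' hne, ← S.hR x hx]
  exact S.hc x x' (S.r x) hne (S.rne hx hx) (hr ▸ S.hadj x' hx')

theorem B2 {x w : V} (hx : x ∈ S.D) (hw : w ∈ S.D) (hne : w ≠ x) :
    S.c x (S.r w) ≠ S.c x (S.ρ w) := by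
  rw [← S.hM x (S.hDU x hx) w hw hne]
  exact (S.hc x w (S.r w) hne (S.rne hw hx) (S.hadj w hw)).symm

theorem inj {x x' : V} (hx : x ∈ S.D) (hx' : x' ∈ S.D) (hρ : S.ρ x' = S.ρ x)
    (hr : S.r x' = S.r x) : x' = x := by
  by_contra hne
  exact S.B1 hx hx' hne hr (by rw [hρ])

/-- the vertices of `D ∩ H` served by `y` -/
noncomputable def Sg (H : Finset V) (y : V) : Finset V := H.filter (fun x => x ∈ S.D ∧ S.r x = y)

theorem mem_Sg {H : Finset V} {y x : V} : x ∈ S.Sg H y ↔ x ∈ H ∧ x ∈ S.D ∧ S.r x = y := by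
  simp [Sg]

theorem Sg_injOn (H : Finset V) (y : V) : Set.InjOn S.ρ (S.Sg H y) := by
  intro a ha b hb hab
  have ha := S.mem_Sg.1 ha
  have hb := S.mem_Sg.1 hb
  exact S.inj hb.2.1 ha.2.1 hab (by rw [ha.2.2, hb.2.2])

theorem card_Sg_le (H : Finset V) (y : V) : (S.Sg H y).card ≤ S.U.card := by
  apply Finset.card_le_card_of_injOn S.ρ
  · intro a ha
    exact S.hρ a (S.mem_Sg.1 ha).2.1
  · exact S.Sg_injOn H y

/-- the exceptional common neighbours -/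
noncomputable def P (H : Finset V) (y : V) : Finset V :=
  H.filter (fun z => z ∉ S.Sg H y ∧ G.Adj z y ∧ ∃ x ∈ S.Sg H y, G.Adj z x)

theorem B3 {H : Finset V} {y y' : V} (hne : y' ≠ y)
    (htype : (S.Sg H y).image S.ρ = (S.Sg H y').image S.ρ) (h2 : 2 ≤ (S.Sg H y).card)
    {z : V} (hz : z ∈ S.P H y) : ¬ G.Adj z y' := by
  intro hzy'
  simp only [P, Finset.mem_filter] at hz
  obtain ⟨hzH, hzS, hzy, x, hx, hzx⟩ := hz
  obtain ⟨x2, hx2, hx2x⟩ := Finset.exists_mem_ne (s := S.Sg H y) (by omega) x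
  have hx' := S.mem_Sg.1 hx
  have hx2' := S.mem_Sg.1 hx2
  -- the vertices of type in y'
  have hw1 : S.ρ x ∈ (S.Sg H y').image S.ρ := htype ▸ Finset.mem_image_of_mem _ hx
  have hw2 : S.ρ x2 ∈ (S.Sg H y').image S.ρ := htype ▸ Finset.mem_image_of_mem _ hx2
  obtain ⟨w1, hw1, hw1e⟩ := Finset.mem_image.1 hw1
  obtain ⟨w2, hw2, hw2e⟩ := Finset.mem_image.1 hw2
  have hw1' := S.mem_Sg.1 hw1
  have hw2' := S.mem_Sg.1 hw2
  have hne1 : w1 ≠ x2 := by
    rintro rfl; exact hne (hw1'.2.2.symm.trans hx2'.2.2)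
  have hne2 : w2 ≠ x2 := by
    rintro rfl; exact hne (hw2'.2.2.symm.trans hx2'.2.2)
  have hzx2 : z ≠ x2 := by
    rintro rfl; exact hzS hx2
  have a1 := S.B1 hx2'.2.1 hx'.2.1 (Ne.symm hx2x) (hx'.2.2.trans hx2'.2.2.symm)
  have a2 := S.B2 hx2'.2.1 hw1'.2.1 hne1
  have a3 := S.B2 hx2'.2.1 hw2'.2.1 hne2
  rw [hw1'.2.2, hw1e] at a2
  rw [hw2'.2.2, hw2e] at a3
  have hy'x2 : y' ≠ x2 := by
    rintro rfl; exact S.rne hw1'.2.1 hx2'.2.1 hw1'.2.2
  have hyx2 : y ≠ x2 := by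
    rintro rfl; exact S.rne hx'.2.1 hx2'.2.1 hx'.2.2
  have b1 : S.c x2 z ≠ S.c x2 (S.ρ x) := by
    rw [← S.hM x2 (S.hDU x2 hx2'.2.1) x hx'.2.1 (Ne.symm hx2x)]
    exact S.hc x2 z x hzx2 (Ne.symm hx2x) hzx
  have b2 : S.c x2 z ≠ S.c x2 (S.ρ x2) := by
    rw [← S.hR x2 hx2'.2.1, hx2'.2.2]
    exact S.hc x2 z y hzx2 hyx2 hzy
  have b3 : S.c x2 z ≠ S.c x2 y' := S.hc x2 z y' hzx2 hy'x2 hzy'
  exact fin3_no4 _ _ _ _ a1 a2 a3 b1 b2 b3

theorem B4 {H : Finset V} {y y' : V} (hne : y' ≠ y)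
    (htype : (S.Sg H y).image S.ρ = (S.Sg H y').image S.ρ)
    {x x2 x3 z z' : V} (hx : x ∈ S.Sg H y) (hx2 : x2 ∈ S.Sg H y) (hx3 : x3 ∈ S.Sg H y)
    (h2 : x2 ≠ x) (h3 : x3 ≠ x) (hzx : G.Adj z x) (hzx2 : G.Adj z x2) (hz'x : G.Adj z' x)
    (hz'x3 : G.Adj z' x3) : ¬ G.Adj z z' := by
  intro hadj
  have hx' := S.mem_Sg.1 hx
  have hx2' := S.mem_Sg.1 hx2
  have hx3' := S.mem_Sg.1 hx3
  have hw : S.ρ x ∈ (S.Sg H y').image S.ρ := htype ▸ Finset.mem_image_of_mem _ hx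
  obtain ⟨w, hw, hwe⟩ := Finset.mem_image.1 hw
  have hw' := S.mem_Sg.1 hw
  have hwU := S.hDU w hw'.2.1
  have key : ∀ u ∈ S.Sg H y, u ≠ w := by
    rintro u hu rfl
    exact hne (hw'.2.2.symm.trans (S.mem_Sg.1 hu).2.2)
  -- other types
  have key2 : ∀ u ∈ S.Sg H y, u ≠ x → S.c w (S.ρ u) ≠ S.c w (S.ρ x) := by
    intro u hu hux
    have hu' := S.mem_Sg.1 hu
    have hv : S.ρ u ∈ (S.Sg H y').image S.ρ := htype ▸ Finset.mem_image_of_mem _ hu
    obtain ⟨v, hv, hve⟩ := Finset.mem_image.1 hv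
    have hv' := S.mem_Sg.1 hv
    have hvw : v ≠ w := by
      rintro rfl
      exact hux (S.inj hx'.2.1 hu'.2.1 (hve.symm.trans hwe) (hu'.2.2.trans hx'.2.2.symm))
    have := S.B1 hw'.2.1 hv'.2.1 hvw (hv'.2.2.trans hw'.2.2.symm)
    rwa [hve, hwe] at this
  have key3 : ∀ u ∈ S.Sg H y, S.c w y ≠ S.c w (S.ρ u) := by
    intro u hu
    have hu' := S.mem_Sg.1 hu
    have := S.B2 hw'.2.1 hu'.2.1 (key u hu)
    rwa [hu'.2.2] at this
  have key4 : ∀ u ∈ S.Sg H y, ∀ z, z ≠ w → G.Adj z u → S.c w z ≠ S.c w (S.ρ u) := by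
    intro u hu z hz hzu
    rw [← S.hM w hwU u (S.mem_Sg.1 hu).2.1 (key u hu)]
    exact S.hc w z u hz (key u hu) hzu
  have hzw : z ≠ w := by
    rintro rfl
    exact S.hInd z hw'.2.1 x hx'.2.1 hwe hzx
  have hz'w : z' ≠ w := by
    rintro rfl
    exact S.hInd z' hw'.2.1 x hx'.2.1 hwe hz'x
  -- c w z = c w y, c w z' = c w y
  have e1 : S.c w z = S.c w y :=
    fin3_third _ _ _ _ (key4 x2 hx2 z hzw hzx2) (key4 x hx z hzw hzx) (key3 x2 hx2) (key3 x hx)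
      (key2 x2 hx2 h2)
  have e2 : S.c w z' = S.c w y :=
    fin3_third _ _ _ _ (key4 x3 hx3 z' hz'w hz'x3) (key4 x hx z' hz'w hz'x) (key3 x3 hx3)
      (key3 x hx) (key2 x3 hx3 h3)
  exact S.hc w z z' hzw hz'w hadj (e1.trans e2.symm)

end Setup

end H851VC
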