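import Pool.Agent.H851.VC.UA

/-!
Upper bound, step B: only few vertices serve at least two vertices.
-/

open Finset
open scoped Classical

namespace H851VC

namespace Setup

variable {V : Type*} {G : SimpleGraph V} (S : Setup G)

theorem arithB (s m q Q hr : ℕ) (hs : 1 ≤ s) (h1 : 2 * Q ≤ s * m) (h2 : Q ≤ s * q)
    (h3 : q + hr ≤ m) : 2 * (hr + Q) ≤ (s + 1) * m := by
  rcases Nat.le_total (2 * q) m with h | h
  · obtain ⟨s', rfl⟩ := Nat.exists_eq_add_of_le hs
    nlinarith [Nat.mul_le_mul_left s' h]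
  · nlinarith

/-- The degree sum of a unit whose exceptional set is small. -/
theorem unit_bound (H : Finset V) {y y' : V} (hne : y' ≠ y)
    (hI : ∀ I ⊆ H, (∀ a ∈ I, ∀ b ∈ I, ¬ G.Adj a b) → 2 * I.card ≤ H.card)
    (htype : (S.Sg H y).image S.ρ = (S.Sg H y').image S.ρ) (h2 : 2 ≤ (S.Sg H y).card) :
    2 * (dg G H y + ∑ x ∈ S.Sg H y, dg G H x) ≤
      ((S.Sg H y).card + 1) * H.card
        + 2 * ((S.Sg H y).card + 1) * ((S.P H y).card + (S.Sg H y).card) := by
  set Sy := S.Sg H y with hSy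
  set s := Sy.card with hs
  have hySy : y ∉ Sy := by
    intro h
    have := S.mem_Sg.1 h
    exact S.rne this.2.1 this.2.1 this.2.2
  have e1 : dg G H y + ∑ x ∈ Sy, dg G H x = ∑ w ∈ insert y Sy, dg G H w := by
    rw [Finset.sum_insert hySy]
  rw [e1, sum_dg]
  set F : V → ℕ := fun z => ((insert y Sy).filter (fun w => G.Adj z w)).card with hF
  set a : V → ℕ := fun z => (Sy.filter (fun w => G.Adj z w)).card with ha
  have hFle : ∀ z, F z ≤ s + 1 := by
    intro z
    calc F z ≤ (insert y Sy).card := Finset.card_filter_le _ _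
      _ = s + 1 := Finset.card_insert_of_notMem hySy
  set HP := H.filter (fun z => z ∈ S.P H y ∨ z ∈ Sy) with hHP
  set HR := H.filter (fun z => ¬ (z ∈ S.P H y ∨ z ∈ Sy)) with hHR
  have hsplit : ∑ z ∈ H, F z = ∑ z ∈ HP, F z + ∑ z ∈ HR, F z :=
    (Finset.sum_filter_add_sum_filter_not H _ _).symm
  have hHPc : HP.card ≤ (S.P H y).card + s := by
    calc HP.card ≤ (S.P H y ∪ Sy).card := by
          apply Finset.card_le_card
          intro z hz
          simpa using (Finset.mem_filter.1 hz).2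
      _ ≤ _ := Finset.card_union_le _ _
  have hHPs : ∑ z ∈ HP, F z ≤ (s + 1) * ((S.P H y).card + s) := by
    calc ∑ z ∈ HP, F z ≤ HP.card • (s + 1) := Finset.sum_le_card_nsmul _ _ _ (fun z _ => hFle z)
      _ = (s + 1) * HP.card := by rw [smul_eq_mul, mul_comm]
      _ ≤ _ := Nat.mul_le_mul_left _ hHPc
  have hFR : ∀ z ∈ HR, F z ≤ if 2 ≤ a z then a z else 1 := by
    intro z hz
    have hz' := Finset.mem_filter.1 hz
    have hFz : F z = (if G.Adj z y then 1 else 0) + a z := by
      simp only [hF, ha]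
      rw [Finset.filter_insert]
      split_ifs with h
      · rw [Finset.card_insert_of_notMem (fun h' => hySy (Finset.mem_filter.1 h').1), add_comm]
      · rw [zero_add]
    have hor : G.Adj z y → a z = 0 := by
      intro hzy
      simp only [ha]
      rw [Finset.card_eq_zero, Finset.filter_eq_empty_iff]
      intro x hx hzx
      apply hz'.2
      left
      simp only [P, Finset.mem_filter]
      exact ⟨hz'.1, fun h => hz'.2 (Or.inr h), hzy, x, hx, hzx⟩
    rw [hFz]
    by_cases h : G.Adj z y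
    · have := hor h
      simp [h, this]
    · simp only [h, if_false, zero_add]
      split_ifs <;> omega
  set Z := HR.filter (fun z => 2 ≤ a z) with hZ
  have hsum2 : ∑ z ∈ HR, F z ≤ ∑ z ∈ Z, a z + (HR.filter (fun z => ¬ 2 ≤ a z)).card := by
    calc ∑ z ∈ HR, F z ≤ ∑ z ∈ HR, if 2 ≤ a z then a z else 1 := Finset.sum_le_sum hFR
      _ = _ := by
        rw [Finset.sum_ite]
        simp [hZ]
  have hcards : Z.card + (HR.filter (fun z => ¬ 2 ≤ a z)).card ≤ H.card := by
    rw [hZ, Finset.card_filter_add_card_filter_not]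
    exact Finset.card_filter_le _ _
  have hZa : ∑ z ∈ Z, a z = ∑ x ∈ Sy, dg G Z x := (sum_dg G Sy Z).symm
  have hind : ∀ x ∈ Sy, 2 * dg G Z x ≤ H.card := by
    intro x hx
    unfold dg
    apply hI
    · intro z hz
      exact (Finset.mem_filter.1 (Finset.mem_filter.1 (Finset.mem_filter.1 hz).1).1).1
    · intro z hz z' hz'
      have hz := Finset.mem_filter.1 hz
      have hz' := Finset.mem_filter.1 hz'
      have h1 : 1 < (Sy.filter (fun w => G.Adj z w)).card := (Finset.mem_filter.1 hz.1).2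
      have h1' : 1 < (Sy.filter (fun w => G.Adj z' w)).card := (Finset.mem_filter.1 hz'.1).2
      obtain ⟨x2, hx2, hx2x⟩ := Finset.exists_mem_ne h1 x
      obtain ⟨x3, hx3, hx3x⟩ := Finset.exists_mem_ne h1' x
      have hx2 := Finset.mem_filter.1 hx2
      have hx3 := Finset.mem_filter.1 hx3
      exact S.B4 hne htype hx hx2.1 hx3.1 hx2x hx3x hz.2.symm hx2.2 hz'.2.symm hx3.2
  have hQ1 : 2 * ∑ z ∈ Z, a z ≤ s * H.card := by
    rw [hZa, Finset.mul_sum]
    calc ∑ x ∈ Sy, 2 * dg G Z x ≤ Sy.card • H.card := Finset.sum_le_card_nsmul _ _ _ hind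
      _ = s * H.card := by rw [smul_eq_mul]
  have hQ2 : ∑ z ∈ Z, a z ≤ s * Z.card := by
    calc ∑ z ∈ Z, a z ≤ Z.card • s :=
          Finset.sum_le_card_nsmul _ _ _ (fun z _ => Finset.card_filter_le _ _)
      _ = s * Z.card := by rw [smul_eq_mul, mul_comm]
  have hfin := arithB s H.card Z.card (∑ z ∈ Z, a z) _ (by omega) hQ1 hQ2 hcards
  rw [hsplit]
  nlinarith

theorem P_disj (H : Finset V) {y y' : V} (hne : y' ≠ y)
    (htype : (S.Sg H y).image S.ρ = (S.Sg H y').image S.ρ) (h2 : 2 ≤ (S.Sg H y).card) :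
    Disjoint (S.P H y) (S.P H y') := by
  rw [Finset.disjoint_left]
  intro z hz hz'
  simp only [P, Finset.mem_filter] at hz'
  exact S.B3 hne htype h2 hz hz'.2.2.1

theorem stepB (H T σ : Finset V) (η : ℝ) (hη : 0 < η) (hη1 : η ≤ 1)
    (hI : ∀ I ⊆ H, (∀ a ∈ I, ∀ b ∈ I, ¬ G.Adj a b) → 2 * I.card ≤ H.card)
    (hO2 : ∀ y ∈ T, (((S.Sg H y).card : ℝ) + 1) *
        ((1 / 2 + η) * H.card - ((S.Sg H y).card + 1)) ≤
        dg G H y + ∑ x ∈ S.Sg H y, (dg G H x : ℝ))
    (hT : ∀ y ∈ T, (S.Sg H y).image S.ρ = σ) (hσ : 2 ≤ σ.card)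
    (hm : 4 * (S.U.card : ℝ) + 2 < η * H.card) : (T.card : ℝ) < 2 / η := by
  by_contra hcon
  push Not at hcon
  have hcard : ∀ y ∈ T, (S.Sg H y).card = σ.card := by
    intro y hy
    rw [← hT y hy, Finset.card_image_of_injOn (S.Sg_injOn H y)]
  have hT2 : 2 ≤ T.card := by
    have : (2 : ℝ) ≤ T.card := le_trans (by rw [le_div_iff₀ hη]; linarith) hcon
    exact_mod_cast this
  have hTne : T.Nonempty := Finset.card_pos.1 (by omega)
  obtain ⟨y, hy, hymin⟩ := Finset.exists_min_image T (fun y => (S.P H y).card) hTne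
  have hsumP : T.card * (S.P H y).card ≤ H.card := by
    calc T.card * (S.P H y).card = T.card • (S.P H y).card := by rw [smul_eq_mul]
      _ ≤ ∑ y' ∈ T, (S.P H y').card := Finset.card_nsmul_le_sum _ _ _ hymin
      _ = (T.biUnion (S.P H)).card := by
          rw [Finset.card_biUnion]
          intro y1 h1 y2 h2 hne
          exact S.P_disj H hne.symm ((hT y1 h1).trans (hT y2 h2).symm)
            (by rw [hcard y1 h1]; exact hσ)
      _ ≤ H.card := by
          apply Finset.card_le_card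
          intro z hz
          obtain ⟨y', _, hz'⟩ := Finset.mem_biUnion.1 hz
          exact (Finset.mem_filter.1 hz').1
  obtain ⟨y', hy', hne⟩ := Finset.exists_mem_ne (s := T) (by omega) y
  have hub := S.unit_bound H hne hI ((hT y hy).trans (hT y' hy').symm) (by rw [hcard y hy]; exact hσ)
  have hlb := hO2 y hy
  have hsU := S.card_Sg_le H y
  set s := (S.Sg H y).card with hs
  set p := (S.P H y).card with hp
  have hub' : 2 * ((dg G H y : ℝ) + ∑ x ∈ S.Sg H y, (dg G H x : ℝ)) ≤
      ((s : ℝ) + 1) * H.card + 2 * ((s : ℝ) + 1) * ((p : ℝ) + s) := by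
    exact_mod_cast hub
  have hs0 : (0 : ℝ) < (s : ℝ) + 1 := by positivity
  have h1 : ((s : ℝ) + 1) * (η * H.card) ≤ ((s : ℝ) + 1) * (p + 2 * s + 1) := by nlinarith
  have h2 : η * H.card ≤ p + 2 * s + 1 := le_of_mul_le_mul_left h1 hs0
  have h3 : (T.card : ℝ) * p ≤ H.card := by exact_mod_cast hsumP
  have h4 : 2 * (p : ℝ) ≤ η * H.card := by
    have h5 : 2 / η * (p : ℝ) ≤ H.card :=
      le_trans (mul_le_mul_of_nonneg_right hcon (by positivity)) h3
    have h6 : 2 / η * (p : ℝ) * η = 2 * p := by field_simp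
    have := mul_le_mul_of_nonneg_right h5 hη.le
    nlinarith
  have h7 : (s : ℝ) ≤ S.U.card := by exact_mod_cast hsU
  linarith

end Setup

end H851VC
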