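import Pool.Agent.H851.VC.UB

/-!
Upper bound, step C: pairs `(x, r x)`.
-/

open Finset
open scoped Classical

namespace H851VC

namespace Setup

variable {V : Type*} {G : SimpleGraph V} (S : Setup G)

/-- for fixed `x` at most one `x'` in each class is of pattern (ii) -/
theorem C3 {x x' x'' : V} (hx' : x' ∈ S.D) (hx'' : x'' ∈ S.D)
    (hρ : S.ρ x' = S.ρ x'') (hne : x'' ≠ x') (hyx' : S.r x ≠ x')
    (h1 : G.Adj x x') (h2 : G.Adj x x'') (h3 : G.Adj x (S.r x''))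
    (h4 : G.Adj (S.r x) (S.r x'')) (h5 : G.Adj (S.r x) (S.r x')) (h0 : G.Adj x (S.r x)) :
    False := by
  have hU := S.hDU x' hx'
  have e1 : S.c x' (S.r x') = S.c x' (S.ρ x') := S.hR x' hx'
  have e2 : S.c x' x'' = S.c x' (S.ρ x') := by rw [hρ]; exact S.hM x' hU x'' hx'' hne
  have n1 : S.c x' x ≠ S.c x' x'' := S.hc x' x x'' h1.ne hne h2
  have n2 : S.c x' (S.r x'') ≠ S.c x' x'' :=
    S.hc x' _ x'' (S.rne hx'' hx') hne (S.hadj x'' hx'').symm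
  have n3 : S.c x' (S.r x'') ≠ S.c x' x := (S.hc x' x _ h1.ne (S.rne hx'' hx') h3).symm
  have n4 : S.c x' (S.r x) ≠ S.c x' x := (S.hc x' x _ h1.ne hyx' h0).symm
  have n5 : S.c x' (S.r x) ≠ S.c x' (S.r x'') := S.hc x' _ _ hyx' (S.rne hx'' hx') h4
  have n6 : S.c x' (S.r x) ≠ S.c x' (S.r x') := S.hc x' _ _ hyx' (S.rne hx' hx') h5
  rw [e1, ← e2] at n6
  exact n6 (fin3_third _ _ _ _ n4 n5 n1.symm n2.symm n3.symm)

/-- for fixed `x'` at most one `x` in each class is of pattern (iii) -/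
theorem C4 {x x' x'' : V} (hx : x ∈ S.D) (hx'' : x'' ∈ S.D) (hx' : x' ∈ S.D)
    (hρ : S.ρ x = S.ρ x'') (hne : x'' ≠ x) (hx'x : x' ≠ x)
    (h1 : G.Adj (S.r x) x') (h2 : G.Adj x'' (S.r x')) (h3 : G.Adj (S.r x'') x')
    (h4 : G.Adj (S.r x'') (S.r x')) : False := by
  have hU := S.hDU x hx
  have e1 : S.c x (S.r x) = S.c x (S.ρ x) := S.hR x hx
  have e2 : S.c x x'' = S.c x (S.ρ x) := by rw [hρ]; exact S.hM x hU x'' hx'' hne
  have n1 : S.c x x' ≠ S.c x (S.ρ x) := by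
    rw [← e1]; exact (S.hc x _ x' (S.rne hx hx) hx'x h1).symm
  have n2 : S.c x (S.r x') ≠ S.c x (S.ρ x) := by
    rw [← e2]; exact (S.hc x x'' _ hne (S.rne hx' hx) h2).symm
  have n3 : S.c x (S.r x') ≠ S.c x x' :=
    (S.hc x x' _ hx'x (S.rne hx' hx) (S.hadj x' hx')).symm
  have n4 : S.c x (S.r x'') ≠ S.c x (S.ρ x) := by
    rw [← e2]; exact (S.hc x x'' _ hne (S.rne hx'' hx) (S.hadj x'' hx'')).symm
  have n5 : S.c x (S.r x'') ≠ S.c x x' := S.hc x _ x' (S.rne hx'' hx) hx'x h3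
  have n6 : S.c x (S.r x'') ≠ S.c x (S.r x') := S.hc x _ _ (S.rne hx'' hx) (S.rne hx' hx) h4
  exact n6 (fin3_third _ _ _ _ n5 n4 n3 n2 n1)

/-- no vertex is adjacent to `x`, `r x`, `r x'` in a good pair -/
theorem C5 {x x' x'' z : V} (hx : x ∈ S.D) (hx' : x' ∈ S.D) (hx'' : x'' ∈ S.D)
    (hρ : S.ρ x' = S.ρ x'') (hne : x'' ≠ x') (hxx' : x ≠ x') (hz : z ≠ x')
    (h1 : G.Adj x x'') (h2 : G.Adj (S.r x) x'')
    (z1 : G.Adj z x) (z2 : G.Adj z (S.r x)) (z3 : G.Adj z (S.r x')) : False := by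
  have hU := S.hDU x' hx'
  have e1 : S.c x' (S.r x') = S.c x' (S.ρ x') := S.hR x' hx'
  have e2 : S.c x' x'' = S.c x' (S.ρ x') := by rw [hρ]; exact S.hM x' hU x'' hx'' hne
  have n1 : S.c x' x ≠ S.c x' x'' := S.hc x' x x'' hxx' hne h1
  have n2 : S.c x' (S.r x) ≠ S.c x' x'' := S.hc x' _ x'' (S.rne hx hx') hne h2
  have n3 : S.c x' (S.r x) ≠ S.c x' x := (S.hc x' x _ hxx' (S.rne hx hx') (S.hadj x hx)).symm
  have n4 : S.c x' z ≠ S.c x' x := S.hc x' z x hz hxx' z1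
  have n5 : S.c x' z ≠ S.c x' (S.r x) := S.hc x' z _ hz (S.rne hx hx') z2
  have n6 : S.c x' z ≠ S.c x' (S.r x') := S.hc x' z _ hz (S.rne hx' hx') z3
  rw [e1, ← e2] at n6
  exact n6 (fin3_third _ _ _ _ n4 n5 n1.symm n2.symm n3.symm)

/-- number of edges between `{x, r x}` and `{x', r x'}` -/
noncomputable def gg (x x' : V) : ℕ :=
  (if G.Adj x x' then 1 else 0) + (if G.Adj x (S.r x') then 1 else 0) +
    (if G.Adj (S.r x) x' then 1 else 0) + (if G.Adj (S.r x) (S.r x') then 1 else 0)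

theorem gg_le {x x' : V} (hx : x ∈ S.D) (hx' : x' ∈ S.D) : S.gg x x' ≤ 3 := by
  unfold gg
  by_contra h
  have h1 : G.Adj x x' := by by_contra h1; simp only [h1, if_false] at h; (split_ifs at h <;> omega)
  have h2 : G.Adj x (S.r x') := by
    by_contra h1; simp only [h1, if_false] at h; (split_ifs at h <;> omega)
  have h3 : G.Adj (S.r x) x' := by
    by_contra h1; simp only [h1, if_false] at h; (split_ifs at h <;> omega)
  have h4 : G.Adj (S.r x) (S.r x') := by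
    by_contra h1; simp only [h1, if_false] at h; (split_ifs at h <;> omega)
  exact S.hK4 x (S.r x) x' (S.r x') (S.hadj x hx) h1 h2 h3 h4 (S.hadj x' hx')

theorem gg_cases {x x' : V} (h : 3 ≤ S.gg x x') :
    (G.Adj x x' ∧ G.Adj x (S.r x') ∧ G.Adj (S.r x) x') ∨
    (G.Adj x x' ∧ G.Adj x (S.r x') ∧ G.Adj (S.r x) (S.r x')) ∨
    (G.Adj x x' ∧ G.Adj (S.r x) x' ∧ G.Adj (S.r x) (S.r x')) ∨
    (G.Adj x (S.r x') ∧ G.Adj (S.r x) x' ∧ G.Adj (S.r x) (S.r x')) := by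
  unfold gg at h
  by_cases h1 : G.Adj x x' <;> by_cases h2 : G.Adj x (S.r x') <;>
    by_cases h3 : G.Adj (S.r x) x' <;> by_cases h4 : G.Adj (S.r x) (S.r x') <;>
    simp [h1, h2, h3, h4] at h ⊢

/-- a finset of pairs on which `(p.1, ρ p.2)` is injective is small -/
theorem card_pairs_le {D1 : Finset V} (hD1 : D1 ⊆ S.D) (B : Finset (V × V))
    (hB : ∀ p ∈ B, p.1 ∈ D1 ∧ p.2 ∈ D1)
    (hinj : ∀ a b b', (a, b) ∈ B → (a, b') ∈ B → S.ρ b = S.ρ b' → b = b') :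
    B.card ≤ D1.card * S.U.card := by
  rw [← Finset.card_product]
  apply Finset.card_le_card_of_injOn (fun p => (p.1, S.ρ p.2))
  · intro p hp
    have hp : p ∈ B := hp
    simp only [Finset.coe_product, Set.mem_prod, Finset.mem_coe]
    exact ⟨(hB p hp).1, S.hρ _ (hD1 (hB p hp).2)⟩
  · rintro ⟨a, b⟩ hp ⟨a', b'⟩ hp' he
    simp only [Prod.mk.injEq] at he
    obtain ⟨rfl, he2⟩ := he
    rw [hinj a b b' hp hp' he2]

theorem card_pairs_le' {D1 : Finset V} (hD1 : D1 ⊆ S.D) (B : Finset (V × V))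
    (hB : ∀ p ∈ B, p.1 ∈ D1 ∧ p.2 ∈ D1)
    (hinj : ∀ a a' b, (a, b) ∈ B → (a', b) ∈ B → S.ρ a = S.ρ a' → a = a') :
    B.card ≤ D1.card * S.U.card := by
  rw [← Finset.card_product]
  apply Finset.card_le_card_of_injOn (fun p => (p.2, S.ρ p.1))
  · intro p hp
    have hp : p ∈ B := hp
    simp only [Finset.coe_product, Set.mem_prod, Finset.mem_coe]
    exact ⟨(hB p hp).2, S.hρ _ (hD1 (hB p hp).1)⟩
  · rintro ⟨a, b⟩ hp ⟨a', b'⟩ hp' he
    simp only [Prod.mk.injEq] at he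
    obtain ⟨rfl, he2⟩ := he
    rw [hinj a a' b hp hp' he2]

/-- good pairs -/
def Good (D1 : Finset V) (x x' : V) : Prop :=
  G.Adj x x' ∧ G.Adj x (S.r x') ∧ G.Adj (S.r x) x' ∧
  (∃ z ∈ D1, z ≠ x' ∧ S.ρ x' = S.ρ z ∧ G.Adj x z ∧ G.Adj (S.r x) z) ∧
  (∃ z ∈ D1, z ≠ x ∧ S.ρ x = S.ρ z ∧ G.Adj x' z ∧ G.Adj (S.r x') z)

theorem exists_good (D1 : Finset V) (hD1 : D1 ⊆ S.D) (hne : D1.Nonempty)
    (hbig : ∀ x ∈ D1, 5 * S.U.card < (D1.filter (fun x' => 3 ≤ S.gg x x')).card) :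
    ∃ x ∈ D1, ∃ x' ∈ D1, S.Good D1 x x' := by
  by_contra hcon
  push Not at hcon
  set Pr := (D1 ×ˢ D1).filter (fun p => 3 ≤ S.gg p.1 p.2) with hPr
  have hPrc : Pr.card = ∑ x ∈ D1, (D1.filter (fun x' => 3 ≤ S.gg x x')).card := by
    rw [hPr, Finset.card_filter, Finset.sum_product]
    exact Finset.sum_congr rfl (fun x _ => by rw [Finset.card_filter])
  have hPrbig : D1.card * (5 * S.U.card) < Pr.card := by
    rw [hPrc, ← smul_eq_mul, ← Finset.sum_const]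
    exact Finset.sum_lt_sum_of_nonempty hne hbig
  set Q1 := Pr.filter (fun p => G.Adj p.1 p.2 ∧ G.Adj p.1 (S.r p.2) ∧ G.Adj (S.r p.1) (S.r p.2))
    with hQ1
  set Q2 := Pr.filter (fun p => G.Adj p.1 p.2 ∧ G.Adj (S.r p.1) p.2 ∧ G.Adj (S.r p.1) (S.r p.2))
    with hQ2
  set Q3 := Pr.filter
    (fun p => G.Adj p.1 (S.r p.2) ∧ G.Adj (S.r p.1) p.2 ∧ G.Adj (S.r p.1) (S.r p.2)) with hQ3
  set Q4 := Pr.filter (fun p => (G.Adj p.1 p.2 ∧ G.Adj p.1 (S.r p.2) ∧ G.Adj (S.r p.1) p.2) ∧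
    ¬ ∃ z ∈ D1, z ≠ p.2 ∧ S.ρ p.2 = S.ρ z ∧ G.Adj p.1 z ∧ G.Adj (S.r p.1) z) with hQ4
  set Q5 := Pr.filter (fun p => (G.Adj p.1 p.2 ∧ G.Adj p.1 (S.r p.2) ∧ G.Adj (S.r p.1) p.2) ∧
    ¬ ∃ z ∈ D1, z ≠ p.1 ∧ S.ρ p.1 = S.ρ z ∧ G.Adj p.2 z ∧ G.Adj (S.r p.2) z) with hQ5
  have hmem : ∀ p ∈ Pr, p.1 ∈ D1 ∧ p.2 ∈ D1 := by
    intro p hp
    have := (Finset.mem_filter.1 hp).1
    exact Finset.mem_product.1 this
  have hcov : Pr ⊆ Q1 ∪ Q2 ∪ Q3 ∪ Q4 ∪ Q5 := by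
    intro p hp
    have hpm := hmem p hp
    have hg : 3 ≤ S.gg p.1 p.2 := (Finset.mem_filter.1 hp).2
    simp only [Finset.mem_union]
    rcases S.gg_cases hg with h | h | h | h
    · by_cases h4 : ∃ z ∈ D1, z ≠ p.2 ∧ S.ρ p.2 = S.ρ z ∧ G.Adj p.1 z ∧ G.Adj (S.r p.1) z
      · right
        rw [hQ5, Finset.mem_filter]
        refine ⟨hp, h, fun h5 => hcon p.1 hpm.1 p.2 hpm.2 ⟨h.1, h.2.1, h.2.2, h4, h5⟩⟩
      · left; right
        rw [hQ4, Finset.mem_filter]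
        exact ⟨hp, h, h4⟩
    · left; left; left; left
      exact Finset.mem_filter.2 ⟨hp, h⟩
    · left; left; left; right
      exact Finset.mem_filter.2 ⟨hp, h⟩
    · left; left; right
      exact Finset.mem_filter.2 ⟨hp, h⟩
  have c1 : Q1.card ≤ D1.card * S.U.card := by
    apply S.card_pairs_le hD1 Q1 (fun p hp => hmem p (Finset.mem_filter.1 hp).1)
    intro a b b' h h' hρ
    by_contra hne'
    have h := Finset.mem_filter.1 h
    have h' := Finset.mem_filter.1 h'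
    have hm := hmem _ h.1
    have hm' := hmem _ h'.1
    exact S.C3 (hD1 hm.2) (hD1 hm'.2) hρ (Ne.symm hne') (S.rne (hD1 hm.1) (hD1 hm.2))
      h.2.1 h'.2.1 h'.2.2.1 h'.2.2.2 h.2.2.2 (S.hadj a (hD1 hm.1))
  have c2 : Q2.card ≤ D1.card * S.U.card := by
    apply S.card_pairs_le' hD1 Q2 (fun p hp => hmem p (Finset.mem_filter.1 hp).1)
    intro a a' b h h' hρ
    by_contra hne'
    have h := Finset.mem_filter.1 h
    have h' := Finset.mem_filter.1 h'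
    have hm := hmem _ h.1
    have hm' := hmem _ h'.1
    exact S.C3 (x := b) (hD1 hm.1) (hD1 hm'.1) hρ (Ne.symm hne') (S.rne (hD1 hm.2) (hD1 hm.1))
      h.2.1.symm h'.2.1.symm h'.2.2.1.symm h'.2.2.2.symm h.2.2.2.symm (S.hadj b (hD1 hm.2))
  have c3 : Q3.card ≤ D1.card * S.U.card := by
    apply S.card_pairs_le' hD1 Q3 (fun p hp => hmem p (Finset.mem_filter.1 hp).1)
    intro a a' b h h' hρ
    by_contra hne'
    have h := Finset.mem_filter.1 h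
    have h' := Finset.mem_filter.1 h'
    have hm := hmem _ h.1
    have hm' := hmem _ h'.1
    have hba : b ≠ a := by
      rintro rfl
      -- b = a : pattern (iii) with x = x' is impossible
      exact G.loopless.irrefl _ h.2.2.2
    exact S.C4 (hD1 hm.1) (hD1 hm'.1) (hD1 hm.2) hρ (Ne.symm hne') hba
      h.2.2.1 h'.2.1 h'.2.2.1 h'.2.2.2
  have c4 : Q4.card ≤ D1.card * S.U.card := by
    apply S.card_pairs_le hD1 Q4 (fun p hp => hmem p (Finset.mem_filter.1 hp).1)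
    intro a b b' h h' hρ
    by_contra hne'
    have h := Finset.mem_filter.1 h
    have h' := Finset.mem_filter.1 h'
    exact h.2.2 ⟨b', (hmem _ h'.1).2, Ne.symm hne', hρ, h'.2.1.1, h'.2.1.2.2⟩
  have c5 : Q5.card ≤ D1.card * S.U.card := by
    apply S.card_pairs_le' hD1 Q5 (fun p hp => hmem p (Finset.mem_filter.1 hp).1)
    intro a a' b h h' hρ
    by_contra hne'
    have h := Finset.mem_filter.1 h
    have h' := Finset.mem_filter.1 h'
    exact h.2.2 ⟨a', (hmem _ h'.1).1, Ne.symm hne', hρ, h'.2.1.1.symm, h'.2.1.2.1.symm⟩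
  have hle : Pr.card ≤ Q1.card + Q2.card + Q3.card + Q4.card + Q5.card := by
    calc Pr.card ≤ (Q1 ∪ Q2 ∪ Q3 ∪ Q4 ∪ Q5).card := Finset.card_le_card hcov
      _ ≤ (Q1 ∪ Q2 ∪ Q3 ∪ Q4).card + Q5.card := Finset.card_union_le _ _
      _ ≤ (Q1 ∪ Q2 ∪ Q3).card + Q4.card + Q5.card := by
          gcongr; exact Finset.card_union_le _ _
      _ ≤ (Q1 ∪ Q2).card + Q3.card + Q4.card + Q5.card := by
          gcongr; exact Finset.card_union_le _ _
      _ ≤ _ := by gcongr; exact Finset.card_union_le _ _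
  nlinarith

/-- the degree sum over a good pair -/
theorem good_bound (H D1 : Finset V) (hD1 : D1 ⊆ S.D) {x x' : V} (hx : x ∈ D1) (hx' : x' ∈ D1)
    (hg : S.Good D1 x x') :
    dg G H x + dg G H (S.r x) + dg G H x' + dg G H (S.r x') ≤ 2 * H.card + 8 := by
  obtain ⟨g1, g2, g3, ⟨u, hu, hux, hρu, hu1, hu2⟩, ⟨w, hw, hwx, hρw, hw1, hw2⟩⟩ := hg
  have hxD := hD1 hx
  have hxD' := hD1 hx'
  set Q : Finset V := {x, S.r x, x', S.r x'} with hQ
  have hQc : Q.card ≤ 4 := Finset.card_le_four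
  have key : ∀ z ∈ H, (if G.Adj x z then 1 else 0) + (if G.Adj (S.r x) z then 1 else 0) +
      (if G.Adj x' z then 1 else 0) + (if G.Adj (S.r x') z then 1 else 0) ≤
      2 + (if z ∈ Q then 2 else 0) := by
    intro z hz
    by_cases hzQ : z ∈ Q
    · simp only [hzQ, if_true]
      split_ifs <;> omega
    · simp only [hzQ, if_false]
      have hzx : z ≠ x := fun h => hzQ (by simp [hQ, h])
      have hzx' : z ≠ x' := fun h => hzQ (by simp [hQ, h])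
      have t1 : ¬ (G.Adj x z ∧ G.Adj (S.r x) z ∧ G.Adj x' z) := by
        rintro ⟨a, b, d⟩
        exact S.hK4 x (S.r x) x' z (S.hadj x hxD) g1 a g3 b d
      have t2 : ¬ (G.Adj x z ∧ G.Adj x' z ∧ G.Adj (S.r x') z) := by
        rintro ⟨a, b, d⟩
        exact S.hK4 x x' (S.r x') z g1 g2 a (S.hadj x' hxD') b d
      have t3 : ¬ (G.Adj x z ∧ G.Adj (S.r x) z ∧ G.Adj (S.r x') z) := by
        rintro ⟨a, b, d⟩
        exact S.C5 hxD hxD' (hD1 hu) hρu hux g1.ne hzx' hu1 hu2 a.symm b.symm d.symm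
      have t4 : ¬ (G.Adj x' z ∧ G.Adj (S.r x') z ∧ G.Adj (S.r x) z) := by
        rintro ⟨a, b, d⟩
        exact S.C5 hxD' hxD (hD1 hw) hρw hwx g1.ne' hzx hw1 hw2 a.symm b.symm d.symm
      by_cases h1 : G.Adj x z <;> by_cases h2 : G.Adj (S.r x) z <;>
        by_cases h3 : G.Adj x' z <;> by_cases h4 : G.Adj (S.r x') z <;>
        simp only [h1, h2, h3, h4, if_true, if_false, and_true, not_true_eq_false] at t1 t2 t3 t4 ⊢ <;>
        omega
  unfold dg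
  simp_rw [Finset.card_filter]
  rw [← Finset.sum_add_distrib, ← Finset.sum_add_distrib, ← Finset.sum_add_distrib]
  refine (Finset.sum_le_sum key).trans ?_
  rw [Finset.sum_add_distrib, Finset.sum_const, smul_eq_mul, ← Finset.sum_filter, Finset.sum_const,
    smul_eq_mul]
  have : (H.filter (fun z => z ∈ Q)).card ≤ 4 := by
    refine le_trans (Finset.card_le_card ?_) hQc
    intro z hz
    exact (Finset.mem_filter.1 hz).2
  omega

end Setup

end H851VC
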