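import Pool.Agent.H851.VC.UC

/-!
Upper bound: the contradiction for the extremal subset `H`.
-/

open Finset
open scoped Classical

namespace H851VC

namespace Setup

variable {V : Type*} {G : SimpleGraph V} (S : Setup G)

theorem Y2_bound (H : Finset V) (η : ℝ) (hη : 0 < η) (hη1 : η ≤ 1)
    (hI : ∀ I ⊆ H, (∀ a ∈ I, ∀ b ∈ I, ¬ G.Adj a b) → 2 * I.card ≤ H.card)
    (hO2 : ∀ y ∈ H, (S.Sg H y).Nonempty → (((S.Sg H y).card : ℝ) + 1) *
        ((1 / 2 + η) * H.card - ((S.Sg H y).card + 1)) ≤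
        dg G H y + ∑ x ∈ S.Sg H y, (dg G H x : ℝ))
    (hm : 4 * (S.U.card : ℝ) + 2 < η * H.card) :
    (H.filter (fun y => 2 ≤ (S.Sg H y).card)).card ≤ ⌈2 / η⌉₊ * 2 ^ S.U.card := by
  set Y2 := H.filter (fun y => 2 ≤ (S.Sg H y).card) with hY2
  have h1 := Finset.card_le_mul_card_image (f := fun y => (S.Sg H y).image S.ρ) Y2 ⌈2 / η⌉₊ ?_
  · refine h1.trans (Nat.mul_le_mul_left _ ?_)
    rw [← Finset.card_powerset]
    apply Finset.card_le_card
    intro σ hσ
    obtain ⟨y, hy, rfl⟩ := Finset.mem_image.1 hσ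
    rw [Finset.mem_powerset]
    intro i hi
    obtain ⟨x, hx, rfl⟩ := Finset.mem_image.1 hi
    exact S.hρ x (S.mem_Sg.1 hx).2.1
  · intro σ hσ
    obtain ⟨y0, hy0, hy0σ⟩ := Finset.mem_image.1 hσ
    have hy0' := Finset.mem_filter.1 hy0
    have hlt := S.stepB H (Y2.filter (fun y => (S.Sg H y).image S.ρ = σ)) σ η hη hη1 hI
      (fun y hy => by
        have hy := Finset.mem_filter.1 (Finset.mem_filter.1 hy).1
        exact hO2 y hy.1 (Finset.card_pos.1 (by omega)))
      (fun y hy => (Finset.mem_filter.1 hy).2)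
      (by
        rw [← hy0σ, Finset.card_image_of_injOn (S.Sg_injOn H y0)]
        exact hy0'.2) hm
    have h2 : ((Y2.filter (fun y => (S.Sg H y).image S.ρ = σ)).card : ℝ) ≤ ⌈2 / η⌉₊ :=
      hlt.le.trans (Nat.le_ceil _)
    exact_mod_cast h2

theorem stepC_final (H : Finset V) (η : ℝ) (hη : 0 < η) (hη1 : η ≤ 1)
    (hI : ∀ I ⊆ H, (∀ a ∈ I, ∀ b ∈ I, ¬ G.Adj a b) → 2 * I.card ≤ H.card)
    (hO2 : ∀ y ∈ H, (S.Sg H y).Nonempty → (((S.Sg H y).card : ℝ) + 1) *
        ((1 / 2 + η) * H.card - ((S.Sg H y).card + 1)) ≤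
        dg G H y + ∑ x ∈ S.Sg H y, (dg G H x : ℝ))
    (hcov : ∀ v ∈ H, v ∈ S.D ∨ (S.Sg H v).Nonempty)
    (hval : ∀ x ∈ H, x ∈ S.D → S.r x ∈ H)
    (hm : 4 + 5 * (S.U.card : ℝ) + 2 * (⌈2 / η⌉₊ * 2 ^ S.U.card * (S.U.card + 1)) < η * H.card) :
    False := by
  set C3 : ℕ := ⌈2 / η⌉₊ * 2 ^ S.U.card * (S.U.card + 1) with hC3
  have hC3r : (⌈2 / η⌉₊ * 2 ^ S.U.card * (S.U.card + 1) : ℝ) = (C3 : ℝ) := by
    rw [hC3]; push_cast; ring
  rw [hC3r] at hm
  have hU0 : (0 : ℝ) ≤ S.U.card := by positivity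
  have hC0 : (0 : ℝ) ≤ C3 := by positivity
  have hY2 := S.Y2_bound H η hη hη1 hI hO2 (by linarith)
  set Y2 := H.filter (fun y => 2 ≤ (S.Sg H y).card) with hY2d
  set D1 := H.filter (fun x => x ∈ S.D ∧ (S.Sg H (S.r x)).card = 1) with hD1
  have hD1D : D1 ⊆ S.D := fun x hx => (Finset.mem_filter.1 hx).2.1
  have hSg1 : ∀ x ∈ D1, S.Sg H (S.r x) = {x} := by
    intro x hx
    have hx' := Finset.mem_filter.1 hx
    obtain ⟨a, ha⟩ := Finset.card_eq_one.1 hx'.2.2
    have : x ∈ S.Sg H (S.r x) := S.mem_Sg.2 ⟨hx'.1, hx'.2.1, rfl⟩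
    rw [ha, Finset.mem_singleton] at this
    rw [ha, this]
  have hrinj : Set.InjOn S.r D1 := by
    intro a ha b hb hab
    have h1 : a ∈ S.Sg H (S.r b) :=
      S.mem_Sg.2 ⟨(Finset.mem_filter.1 ha).1, hD1D ha, hab⟩
    rw [hSg1 b hb] at h1
    exact Finset.mem_singleton.1 h1
  set Y1 := D1.image S.r with hY1
  have hY1c : Y1.card = D1.card := Finset.card_image_of_injOn hrinj
  have hdisj : Disjoint D1 Y1 := by
    rw [Finset.disjoint_left]
    intro a ha hb
    obtain ⟨b, hb, hab⟩ := Finset.mem_image.1 hb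
    exact S.rne (hD1D hb) (hD1D ha) hab
  have hD1H : D1 ⊆ H := Finset.filter_subset _ _
  have hY1H : Y1 ⊆ H := by
    intro y hy
    obtain ⟨b, hb, rfl⟩ := Finset.mem_image.1 hy
    exact hval b (hD1H hb) (hD1D hb)
  have h2D1 : 2 * D1.card ≤ H.card := by
    calc 2 * D1.card = D1.card + Y1.card := by rw [hY1c]; ring
      _ = (D1 ∪ Y1).card := (Finset.card_union_of_disjoint hdisj).symm
      _ ≤ H.card := Finset.card_le_card (Finset.union_subset hD1H hY1H)
  set E := H \ (D1 ∪ Y1) with hE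
  have hEsub : E ⊆ Y2 ∪ Y2.biUnion (S.Sg H) := by
    intro v hv
    rw [hE, Finset.mem_sdiff, Finset.mem_union, not_or] at hv
    obtain ⟨hvH, hvD1, hvY1⟩ := hv
    rw [Finset.mem_union]
    rcases hcov v hvH with hvD | hne
    · right
      have hmem : v ∈ S.Sg H (S.r v) := S.mem_Sg.2 ⟨hvH, hvD, rfl⟩
      have hpos : 0 < (S.Sg H (S.r v)).card := Finset.card_pos.2 ⟨v, hmem⟩
      have hne1 : (S.Sg H (S.r v)).card ≠ 1 := fun h => hvD1 (Finset.mem_filter.2 ⟨hvH, hvD, h⟩)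
      exact Finset.mem_biUnion.2
        ⟨S.r v, Finset.mem_filter.2 ⟨hval v hvH hvD, by omega⟩, hmem⟩
    · left
      have hpos : 0 < (S.Sg H v).card := Finset.card_pos.2 hne
      have hne1 : (S.Sg H v).card ≠ 1 := by
        intro h
        obtain ⟨x, hx⟩ := hne
        have hx' := S.mem_Sg.1 hx
        apply hvY1
        refine Finset.mem_image.2 ⟨x, Finset.mem_filter.2 ⟨hx'.1, hx'.2.1, ?_⟩, hx'.2.2⟩
        rw [hx'.2.2]; exact h
      exact Finset.mem_filter.2 ⟨hvH, by omega⟩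
  have hEc : E.card ≤ C3 := by
    calc E.card ≤ (Y2 ∪ Y2.biUnion (S.Sg H)).card := Finset.card_le_card hEsub
      _ ≤ Y2.card + (Y2.biUnion (S.Sg H)).card := Finset.card_union_le _ _
      _ ≤ Y2.card + Y2.card * S.U.card := by
          gcongr
          exact Finset.card_biUnion_le_card_mul _ _ _ (fun y _ => S.card_Sg_le H y)
      _ = Y2.card * (S.U.card + 1) := by ring
      _ ≤ ⌈2 / η⌉₊ * 2 ^ S.U.card * (S.U.card + 1) := Nat.mul_le_mul_right _ hY2
  have hO2x : ∀ x ∈ D1, 2 * ((1 / 2 + η) * H.card - 2) ≤ (dg G H x : ℝ) + dg G H (S.r x) := by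
    intro x hx
    have h := hO2 (S.r x) (hval x (hD1H hx) (hD1D hx)) (by rw [hSg1 x hx]; simp)
    rw [hSg1 x hx] at h
    simp only [Finset.card_singleton, Nat.cast_one, Finset.sum_singleton] at h
    linarith
  have hdgE : ∀ v, dg G H v ≤ dg G D1 v + dg G Y1 v + E.card := by
    intro v
    unfold dg
    calc (H.filter (fun w => G.Adj v w)).card
        ≤ ((D1.filter (fun w => G.Adj v w)) ∪ (Y1.filter (fun w => G.Adj v w)) ∪ E).card := by
          apply Finset.card_le_card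
          intro w hw
          have hw := Finset.mem_filter.1 hw
          by_cases h1 : w ∈ D1
          · simp [h1, hw.2]
          · by_cases h2 : w ∈ Y1
            · simp [h2, hw.2]
            · have : w ∈ E := by
                rw [hE, Finset.mem_sdiff, Finset.mem_union, not_or]; exact ⟨hw.1, h1, h2⟩
              simp [this]
      _ ≤ _ := (Finset.card_union_le _ _).trans
          (Nat.add_le_add_right (Finset.card_union_le _ _) _)
  have hgsum : ∀ x, ∑ x' ∈ D1, S.gg x x' =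
      dg G D1 x + dg G Y1 x + dg G D1 (S.r x) + dg G Y1 (S.r x) := by
    intro x
    unfold gg dg
    simp_rw [Finset.card_filter]
    rw [Finset.sum_add_distrib, Finset.sum_add_distrib, Finset.sum_add_distrib, hY1,
      Finset.sum_image hrinj, Finset.sum_image hrinj]
  have hbig : ∀ x ∈ D1, 5 * S.U.card < (D1.filter (fun x' => 3 ≤ S.gg x x')).card := by
    intro x hx
    have h1 : ∑ x' ∈ D1, S.gg x x' ≤ 2 * D1.card + (D1.filter (fun x' => 3 ≤ S.gg x x')).card := by
      calc ∑ x' ∈ D1, S.gg x x' ≤ ∑ x' ∈ D1, (2 + if 3 ≤ S.gg x x' then 1 else 0) := by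
            apply Finset.sum_le_sum
            intro x' hx'
            have := S.gg_le (hD1D hx) (hD1D hx')
            split_ifs <;> omega
        _ = _ := by
            rw [Finset.sum_add_distrib, Finset.sum_const, smul_eq_mul, mul_comm, ← Finset.card_filter]
    have h2 := hgsum x
    have h3 := hdgE x
    have h4 := hdgE (S.r x)
    have h5 := hO2x x hx
    have h6 : (dg G H x + dg G H (S.r x) : ℕ) ≤
        H.card + (D1.filter (fun x' => 3 ≤ S.gg x x')).card + 2 * C3 := by omega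
    have h7 : ((dg G H x : ℝ) + dg G H (S.r x)) ≤
        H.card + (D1.filter (fun x' => 3 ≤ S.gg x x')).card + 2 * C3 := by exact_mod_cast h6
    have h8 : (5 * (S.U.card : ℝ)) < ((D1.filter (fun x' => 3 ≤ S.gg x x')).card : ℝ) := by
      nlinarith
    exact_mod_cast h8
  have hne : D1.Nonempty := by
    rw [Finset.nonempty_iff_ne_empty]
    intro h
    have h1 : Y1 = ∅ := by rw [hY1, h]; simp
    have h2 : E = H := by rw [hE, h, h1]; simp
    rw [h2] at hEc
    have h3 : (H.card : ℝ) ≤ C3 := by exact_mod_cast hEc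
    nlinarith [mul_le_mul_of_nonneg_right hη1 (by positivity : (0:ℝ) ≤ (H.card : ℝ))]
  obtain ⟨x, hx, x', hx', hg⟩ := S.exists_good D1 hD1D hne hbig
  have hgb := S.good_bound H D1 hD1D hx hx' hg
  have h1 := hO2x x hx
  have h2 := hO2x x' hx'
  have hgb' : (dg G H x : ℝ) + dg G H (S.r x) + dg G H x' + dg G H (S.r x') ≤
      2 * H.card + 8 := by exact_mod_cast hgb
  nlinarith

end Setup

end H851VC
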