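import Pool.Agent.H851.VC.UD

/-!
Upper bound: the extremal subset `H`.
-/

open Finset
open scoped Classical

namespace H851VC

theorem e2_mono {V : Type*} (G : SimpleGraph V) {H H' : Finset V} (h : H ⊆ H') :
    e2 G H ≤ e2 G H' := by
  unfold e2
  calc ∑ v ∈ H, dg G H v ≤ ∑ v ∈ H, dg G H' v := Finset.sum_le_sum (fun v _ => dg_mono G h v)
    _ ≤ _ := Finset.sum_le_sum_of_subset h

theorem e2_le {V : Type*} (G : SimpleGraph V) (H : Finset V) : e2 G H ≤ H.card ^ 2 := by
  unfold e2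
  calc ∑ v ∈ H, dg G H v ≤ H.card • H.card :=
        Finset.sum_le_card_nsmul _ _ _ (fun v _ => dg_le G H v)
    _ = _ := by rw [smul_eq_mul, sq]

namespace Setup

variable {V : Type*} {G : SimpleGraph V} (S : Setup G)

theorem upper_core [Fintype V] (η : ℝ) (hη : 0 < η) (hη1 : η ≤ 1)
    (hE : (1 / 2 + η) * ((S.D ∪ S.N).card : ℝ) ^ 2 + η / 2 * (Fintype.card V : ℝ) ^ 2 ≤
      e2 G (S.D ∪ S.N))
    (hlink : ∀ v ∈ S.N, (e2 G (Finset.univ.filter (fun w => G.Adj v w)) : ℝ) <
      η ^ 3 / 4 * (Fintype.card V : ℝ) ^ 2)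
    (hbigm : ∀ m : ℕ, η / 2 * (Fintype.card V : ℝ) ^ 2 ≤ (m : ℝ) ^ 2 →
      4 + 5 * (S.U.card : ℝ) + 2 * (⌈2 / η⌉₊ * 2 ^ S.U.card * (S.U.card + 1)) < η * m) :
    False := by
  set n : ℝ := (Fintype.card V : ℝ) with hn
  set W := (S.D ∪ S.N).powerset.filter (fun H => ∀ x ∈ H, x ∈ S.D → S.r x ∈ H) with hW
  set ψ : Finset V → ℝ := fun H => (e2 G H : ℝ) - (1 / 2 + η) * (H.card : ℝ) ^ 2 with hψ
  have hWne : (S.D ∪ S.N) ∈ W := by
    rw [hW, Finset.mem_filter, Finset.mem_powerset]
    exact ⟨subset_rfl, fun x _ hx => Finset.mem_union_right _ (S.hr x hx)⟩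
  obtain ⟨H, hHW, hmax⟩ := Finset.exists_max_image W ψ ⟨_, hWne⟩
  have hHW' := Finset.mem_filter.1 hHW
  have hHsub : H ⊆ S.D ∪ S.N := Finset.mem_powerset.1 hHW'.1
  have hval : ∀ x ∈ H, x ∈ S.D → S.r x ∈ H := hHW'.2
  have hψH : η / 2 * n ^ 2 ≤ ψ H := by
    have := hmax _ hWne
    simp only [hψ] at this ⊢
    linarith
  have hm2 : η / 2 * n ^ 2 ≤ (H.card : ℝ) ^ 2 := by
    have h1 : (e2 G H : ℝ) ≤ (H.card : ℝ) ^ 2 := by exact_mod_cast e2_le G H
    have h2 : 0 ≤ (1 / 2 + η) * (H.card : ℝ) ^ 2 := by positivity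
    simp only [hψ] at hψH
    linarith
  have hm := hbigm H.card hm2
  set m : ℝ := (H.card : ℝ) with hmdef
  have hm0 : 0 ≤ m := by positivity
  have hηm : 4 < η * m := by
    have h1 : (0 : ℝ) ≤ 5 * (S.U.card : ℝ) := by positivity
    have h2 : (0 : ℝ) ≤ 2 * (⌈2 / η⌉₊ * 2 ^ S.U.card * (S.U.card + 1) : ℝ) := by positivity
    linarith
  -- removal inequality
  have hrem : ∀ T ⊆ H, (∀ x ∈ H \ T, x ∈ S.D → S.r x ∈ H \ T) →
      (T.card : ℝ) * ((1 / 2 + η) * m - T.card) ≤ ∑ w ∈ T, (dg G H w : ℝ) := by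
    intro T hT hv
    have hTW : H \ T ∈ W := by
      rw [hW, Finset.mem_filter, Finset.mem_powerset]
      exact ⟨Finset.sdiff_subset.trans hHsub, hv⟩
    have h1 := hmax _ hTW
    have h2 : (e2 G H : ℝ) ≤ e2 G (H \ T) + 2 * ∑ w ∈ T, (dg G H w : ℝ) := by
      exact_mod_cast e2_sdiff G H T hT
    have h3 : ((H \ T).card : ℝ) = m - T.card := by
      rw [Finset.card_sdiff_of_subset hT, Nat.cast_sub (Finset.card_le_card hT)]
    simp only [hψ] at h1
    rw [h3] at h1
    have ht : (0 : ℝ) ≤ T.card := by positivity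
    nlinarith [sq_nonneg (T.card : ℝ), mul_nonneg ht ht, mul_le_mul_of_nonneg_right hη1 (sq_nonneg (T.card : ℝ))]
  have hO1 : ∀ v ∈ H, ¬ (S.Sg H v).Nonempty → (1 / 2 + η) * m - 1 ≤ dg G H v := by
    intro v hv hne
    have := hrem {v} (Finset.singleton_subset_iff.2 hv) (by
      intro x hx hxD
      have hx := Finset.mem_sdiff.1 hx
      rw [Finset.mem_sdiff, Finset.mem_singleton]
      exact ⟨hval x hx.1 hxD, fun h => hne ⟨x, S.mem_Sg.2 ⟨hx.1, hxD, h⟩⟩⟩)
    simpa using this
  have hO2 : ∀ y ∈ H, (S.Sg H y).Nonempty → (((S.Sg H y).card : ℝ) + 1) *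
        ((1 / 2 + η) * m - ((S.Sg H y).card + 1)) ≤
        dg G H y + ∑ x ∈ S.Sg H y, (dg G H x : ℝ) := by
    intro y hy hne
    have hySg : y ∉ S.Sg H y := by
      intro h
      have := S.mem_Sg.1 h
      exact S.rne this.2.1 this.2.1 this.2.2
    have := hrem (insert y (S.Sg H y))
      (Finset.insert_subset_iff.2 ⟨hy, fun x hx => (S.mem_Sg.1 hx).1⟩) (by
      intro x hx hxD
      have hx := Finset.mem_sdiff.1 hx
      rw [Finset.mem_insert, not_or] at hx
      rw [Finset.mem_sdiff, Finset.mem_insert, not_or]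
      refine ⟨hval x hx.1 hxD, fun h => hx.2.2 (S.mem_Sg.2 ⟨hx.1, hxD, h⟩), fun h => ?_⟩
      exact S.rne hxD (S.mem_Sg.1 h).2.1 rfl)
    rw [Finset.card_insert_of_notMem hySg, Finset.sum_insert hySg] at this
    push_cast at this
    exact this
  -- served vertices
  set Y := H.filter (fun y => (S.Sg H y).Nonempty) with hY
  have hYc : 2 * Y.card ≤ H.card := by
    have h1 : Y ⊆ (H.filter (fun x => x ∈ S.D)).image S.r := by
      intro y hy
      obtain ⟨x, hx⟩ := (Finset.mem_filter.1 hy).2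
      have hx := S.mem_Sg.1 hx
      exact Finset.mem_image.2 ⟨x, Finset.mem_filter.2 ⟨hx.1, hx.2.1⟩, hx.2.2⟩
    have h2 : Y.card ≤ (H.filter (fun x => x ∈ S.D)).card :=
      (Finset.card_le_card h1).trans Finset.card_image_le
    have h3 : Disjoint Y (H.filter (fun x => x ∈ S.D)) := by
      rw [Finset.disjoint_left]
      intro a ha hb
      obtain ⟨x, hx⟩ := (Finset.mem_filter.1 ha).2
      have hx := S.mem_Sg.1 hx
      exact S.rne hx.2.1 (Finset.mem_filter.1 hb).2 hx.2.2
    calc 2 * Y.card ≤ Y.card + (H.filter (fun x => x ∈ S.D)).card := by omega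
      _ = (Y ∪ H.filter (fun x => x ∈ S.D)).card := (Finset.card_union_of_disjoint h3).symm
      _ ≤ H.card := Finset.card_le_card
          (Finset.union_subset (Finset.filter_subset _ _) (Finset.filter_subset _ _))
  have hYc' : 2 * (Y.card : ℝ) ≤ m := by rw [hmdef]; exact_mod_cast hYc
  have hI : ∀ I ⊆ H, (∀ a ∈ I, ∀ b ∈ I, ¬ G.Adj a b) → 2 * I.card ≤ H.card := by
    intro I hIH hind
    by_cases hIY : I ⊆ Y
    · exact (Nat.mul_le_mul_left 2 (Finset.card_le_card hIY)).trans hYc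
    · obtain ⟨u, huI, huY⟩ := Finset.not_subset.1 hIY
      have huH := hIH huI
      have h1 := hO1 u huH (fun h => huY (Finset.mem_filter.2 ⟨huH, h⟩))
      have h2 : dg G H u ≤ (H \ I).card := by
        unfold dg
        apply Finset.card_le_card
        intro w hw
        have hw := Finset.mem_filter.1 hw
        exact Finset.mem_sdiff.2 ⟨hw.1, fun h => hind u huI w h hw.2⟩
      have h3 : (dg G H u : ℝ) ≤ m - I.card := by
        have : ((H \ I).card : ℝ) = m - I.card := by
          rw [Finset.card_sdiff_of_subset hIH, Nat.cast_sub (Finset.card_le_card hIH)]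
        rw [← this]; exact_mod_cast h2
      have h4 : 2 * (I.card : ℝ) ≤ m := by nlinarith
      rw [hmdef] at h4
      exact_mod_cast h4
  have hcov : ∀ v ∈ H, v ∈ S.D ∨ (S.Sg H v).Nonempty := by
    intro v hv
    by_contra hcon
    push Not at hcon
    obtain ⟨hvD, hvS⟩ := hcon
    have hvS' : ¬ (S.Sg H v).Nonempty := by rw [hvS]; simp
    have hvN : v ∈ S.N := by
      rcases Finset.mem_union.1 (hHsub hv) with h | h
      · exact absurd h hvD
      · exact h
    set I := H.filter (fun w => G.Adj v w) with hIdef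
    have hIc : (1 / 2 + η) * m - 1 ≤ (I.card : ℝ) := hO1 v hv hvS'
    have hl := hlink v hvN
    have hIle : (e2 G I : ℝ) ≤ e2 G (Finset.univ.filter (fun w => G.Adj v w)) := by
      exact_mod_cast e2_mono G (Finset.filter_subset_filter _ (Finset.subset_univ H))
    have hIH : I ⊆ H := Finset.filter_subset _ _
    -- each free vertex of I has many neighbours in I
    have hu : ∀ u ∈ I \ Y, 2 * η * m - 2 ≤ (dg G I u : ℝ) := by
      intro u hu
      have hu := Finset.mem_sdiff.1 hu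
      have huH := hIH hu.1
      have h1 := hO1 u huH (fun h => hu.2 (Finset.mem_filter.2 ⟨huH, h⟩))
      have h2 : dg G H u ≤ (H \ I).card + dg G I u := by
        rw [dg_union G hIH u]
        exact Nat.add_le_add_right (dg_le G _ _) _
      have h3 : ((H \ I).card : ℝ) = m - I.card := by
        rw [Finset.card_sdiff_of_subset hIH, Nat.cast_sub (Finset.card_le_card hIH)]
      have h4 : (dg G H u : ℝ) ≤ (m - I.card) + dg G I u := by
        rw [← h3]; exact_mod_cast h2
      linarith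
    have hcard : η * m - 1 ≤ ((I \ Y).card : ℝ) := by
      have h1 : I.card ≤ (I \ Y).card + Y.card := by
        have := Finset.card_le_card (Finset.subset_union_left (s₁ := I) (s₂ := Y))
        rw [← Finset.sdiff_union_self_eq_union] at this
        exact this.trans (Finset.card_union_le _ _)
      have h2 : (I.card : ℝ) ≤ (I \ Y).card + Y.card := by exact_mod_cast h1
      linarith
    have hsum : ((I \ Y).card : ℝ) * (2 * η * m - 2) ≤ (e2 G I : ℝ) := by
      have h1 : ((I \ Y).card : ℝ) * (2 * η * m - 2) ≤ ∑ u ∈ I \ Y, (dg G I u : ℝ) := by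
        rw [← nsmul_eq_mul]
        exact Finset.card_nsmul_le_sum _ _ _ hu
      have h2 : ∑ u ∈ I \ Y, (dg G I u : ℝ) ≤ (e2 G I : ℝ) := by
        unfold e2
        push_cast
        exact Finset.sum_le_sum_of_subset_of_nonneg Finset.sdiff_subset
          (fun _ _ _ => by positivity)
      exact h1.trans h2
    have h5 : η * m / 2 ≤ η * m - 1 := by linarith
    have h6 : η * m ≤ 2 * η * m - 2 := by linarith
    have h7 : (η * m / 2) * (η * m) ≤ ((I \ Y).card : ℝ) * (2 * η * m - 2) := by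
      apply mul_le_mul (h5.trans hcard) h6 (by positivity) (by positivity)
    have h8 : η ^ 3 / 4 * n ^ 2 ≤ (η * m / 2) * (η * m) := by
      have : η ^ 2 / 2 * (η / 2 * n ^ 2) ≤ η ^ 2 / 2 * m ^ 2 :=
        mul_le_mul_of_nonneg_left hm2 (by positivity)
      nlinarith
    linarith
  exact S.stepC_final H η hη hη1 hI hO2 hcov hval hm

end Setup

end H851VC
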