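import Pool.Agent.H851.VC.UE

/-!
Upper bound: construction of the setup from a vertex-critical 4-chromatic graph.
-/

open Finset
open scoped Classical

namespace H851VC

variable {V : Type*} (G : SimpleGraph V)

theorem e2_eq (H : Finset V) : e2 G H = ((H ×ˢ H).filter (fun p => G.Adj p.1 p.2)).card := by
  unfold e2 dg
  rw [Finset.card_filter, Finset.sum_product]
  exact Finset.sum_congr rfl (fun x _ => by rw [Finset.card_filter])

variable [Fintype V]

/-- ordered pairs of adjacent common neighbours -/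
noncomputable def Lk (u : V) : Finset (V × V) :=
  ((Finset.univ.filter (fun w => G.Adj u w)) ×ˢ (Finset.univ.filter (fun w => G.Adj u w))).filter
    (fun p => G.Adj p.1 p.2)

theorem card_Lk (u : V) : (Lk G u).card = e2 G (Finset.univ.filter (fun w => G.Adj u w)) := by
  rw [e2_eq]; rfl

theorem mem_Lk {u : V} {p : V × V} :
    p ∈ Lk G u ↔ G.Adj u p.1 ∧ G.Adj u p.2 ∧ G.Adj p.1 p.2 := by
  simp [Lk, and_assoc]

/-- two sets of link pairs with a large intersection have a common pair avoiding `v` -/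
theorem exists_avoid (A : Finset (V × V)) (hA : 2 * Fintype.card V < A.card) (v : V) :
    ∃ p ∈ A, p.1 ≠ v ∧ p.2 ≠ v := by
  by_contra hcon
  push Not at hcon
  have h1 : A ⊆ ({v} ×ˢ Finset.univ) ∪ (Finset.univ ×ˢ {v}) := by
    intro p hp
    have := hcon p hp
    by_cases h : p.1 = v
    · exact Finset.mem_union_left _
        (Finset.mem_product.2 ⟨Finset.mem_singleton.2 h, Finset.mem_univ _⟩)
    · exact Finset.mem_union_right _
        (Finset.mem_product.2 ⟨Finset.mem_univ _, Finset.mem_singleton.2 (this h)⟩)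
  have h2 := Finset.card_le_card h1
  have h3 := Finset.card_union_le (({v} : Finset V) ×ˢ (Finset.univ : Finset V))
    ((Finset.univ : Finset V) ×ˢ ({v} : Finset V))
  simp only [Finset.card_product, Finset.card_singleton, Finset.card_univ, one_mul, mul_one] at h3
  omega

theorem family_bound (γ : ℝ) (U : Finset V)
    (h1 : ∀ u ∈ U, γ * (Fintype.card V : ℝ) ^ 2 ≤ (Lk G u).card)
    (h2 : ∀ u ∈ U, ∀ u' ∈ U, u ≠ u' → (Lk G u ∩ Lk G u').card ≤ 2 * Fintype.card V) :
    (U.card : ℝ) * (γ * (Fintype.card V : ℝ) ^ 2) ≤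
      (U.biUnion (Lk G)).card + (U.card : ℝ) ^ 2 * (2 * Fintype.card V) := by
  induction U using Finset.induction_on with
  | empty => simp
  | insert a U ha ih =>
    have ih' := ih (fun u hu => h1 u (Finset.mem_insert_of_mem hu))
      (fun u hu u' hu' => h2 u (Finset.mem_insert_of_mem hu) u' (Finset.mem_insert_of_mem hu'))
    rw [Finset.card_insert_of_notMem ha, Finset.biUnion_insert]
    have h3 : (Lk G a ∩ U.biUnion (Lk G)).card ≤ U.card * (2 * Fintype.card V) := by
      rw [Finset.inter_biUnion]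
      refine Finset.card_biUnion_le_card_mul _ _ _ (fun u hu => ?_)
      exact h2 a (Finset.mem_insert_self _ _) u (Finset.mem_insert_of_mem hu)
        (fun h => ha (h ▸ hu))
    have h4 : (Lk G a ∪ U.biUnion (Lk G)).card + (Lk G a ∩ U.biUnion (Lk G)).card =
        (Lk G a).card + (U.biUnion (Lk G)).card := Finset.card_union_add_card_inter _ _
    have h5 : ((Lk G a).card : ℝ) + (U.biUnion (Lk G)).card ≤
        (Lk G a ∪ U.biUnion (Lk G)).card + U.card * (2 * Fintype.card V) := by
      have : (Lk G a).card + (U.biUnion (Lk G)).card ≤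
        (Lk G a ∪ U.biUnion (Lk G)).card + U.card * (2 * Fintype.card V) := by omega
      exact_mod_cast this
    have h6 := h1 a (Finset.mem_insert_self _ _)
    have h7 : (0 : ℝ) ≤ (Fintype.card V : ℝ) := by positivity
    have h8 : (0 : ℝ) ≤ (U.card : ℝ) := by positivity
    push_cast
    nlinarith [mul_nonneg h7 h8]

theorem family_small (γ : ℝ) (hγ : 0 < γ) (hn : 2 * (⌈2 / γ⌉₊ : ℝ) ^ 2 < Fintype.card V)
    (U : Finset V)
    (h1 : ∀ u ∈ U, γ * (Fintype.card V : ℝ) ^ 2 ≤ (Lk G u).card)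
    (h2 : ∀ u ∈ U, ∀ u' ∈ U, u ≠ u' → (Lk G u ∩ Lk G u').card ≤ 2 * Fintype.card V) :
    U.card ≤ ⌈2 / γ⌉₊ := by
  by_contra hcon
  push Not at hcon
  obtain ⟨U', hU', hU'c⟩ := Finset.exists_subset_card_eq hcon.le
  have h3 := family_bound G γ U' (fun u hu => h1 u (hU' hu))
    (fun u hu u' hu' => h2 u (hU' hu) u' (hU' hu'))
  rw [hU'c] at h3
  set k : ℝ := (⌈2 / γ⌉₊ : ℝ) with hk
  set n : ℝ := (Fintype.card V : ℝ) with hn'
  have h4 : ((U'.biUnion (Lk G)).card : ℝ) ≤ n ^ 2 := by
    have : (U'.biUnion (Lk G)).card ≤ Fintype.card V ^ 2 := by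
      calc (U'.biUnion (Lk G)).card ≤ Fintype.card (V × V) := Finset.card_le_univ _
        _ = _ := by rw [Fintype.card_prod, sq]
    rw [hn']; exact_mod_cast this
  have h5 : 2 ≤ k * γ := by
    have : 2 / γ ≤ k := Nat.le_ceil _
    rwa [div_le_iff₀ hγ] at this
  have hn0 : 0 < n := lt_of_le_of_lt (by positivity) hn
  have h6 : 2 * n ^ 2 ≤ k * (γ * n ^ 2) := by
    have := mul_le_mul_of_nonneg_right h5 (sq_nonneg n)
    nlinarith
  have h7 : n * n ≤ (2 * k ^ 2) * n := by nlinarith
  have h8 := le_of_mul_le_mul_right h7 hn0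
  linarith

theorem upper (η : ℝ) (hη : 0 < η) (hη1 : η ≤ 1)
    (hcol : ∀ v, ∃ f : V → Fin 3, ∀ u w, u ≠ v → w ≠ v → G.Adj u w → f u ≠ f w)
    (hnot : ∀ f : V → Fin 3, ∃ u w, G.Adj u w ∧ f u = f w)
    (k : ℕ) (hk : k = ⌈2 / (η ^ 3 / 4)⌉₊)
    (hn1 : 5 + k + 2 * (k : ℝ) ^ 2 < Fintype.card V)
    (hn2 : 4 * ((k : ℝ) + k ^ 2) < η * Fintype.card V)
    (hn3 : 2 * (4 + 5 * (k : ℝ) + 2 * (⌈2 / η⌉₊ * 2 ^ k * (k + 1))) < η ^ 2 * Fintype.card V) :
    (e2 G Finset.univ : ℝ) < (1 / 2 + 2 * η) * (Fintype.card V : ℝ) ^ 2 := by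
  by_contra hcon
  push Not at hcon
  set n : ℝ := (Fintype.card V : ℝ) with hn
  set γ : ℝ := η ^ 3 / 4 with hγ
  have hγ0 : 0 < γ := by positivity
  choose c hc using hcol
  -- every colour appears around `v`
  have hext : ∀ v κ, ∃ y, G.Adj v y ∧ c v y = κ := by
    intro v κ
    by_contra hno
    push Not at hno
    obtain ⟨u, w, huw, he⟩ := hnot (fun x => if x = v then κ else c v x)
    by_cases hu : u = v
    · subst hu
      have hw : w ≠ u := huw.ne'
      simp only [if_true, if_neg hw] at he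
      exact hno w huw he.symm
    · by_cases hw : w = v
      · subst hw
        simp only [if_true, if_neg hu] at he
        exact hno u huw.symm he
      · simp only [if_neg hu, if_neg hw] at he
        exact hc v u w hu hw huw he
  have hcard5 : 5 + k < Fintype.card V := by
    have : (5 : ℝ) + k < Fintype.card V := by
      have : (0 : ℝ) ≤ 2 * (k : ℝ) ^ 2 := by positivity
      linarith
    exact_mod_cast this
  have hK4 : ∀ a b c d, G.Adj a b → G.Adj a c → G.Adj a d → G.Adj b c → G.Adj b d →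
      G.Adj c d → False := by
    intro a b x d hab hax had hbx hbd hxd
    have : ({a, b, x, d} : Finset V).card < Fintype.card V :=
      lt_of_le_of_lt Finset.card_le_four (by omega)
    obtain ⟨v, hv⟩ : ∃ v, v ∉ ({a, b, x, d} : Finset V) := by
      by_contra hall
      push Not at hall
      have : (Finset.univ : Finset V) ⊆ {a, b, x, d} := fun z _ => hall z
      have := Finset.card_le_card this
      rw [Finset.card_univ] at this
      omega
    simp only [Finset.mem_insert, Finset.mem_singleton, not_or] at hv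
    obtain ⟨h1, h2, h3, h4⟩ := hv
    exact fin3_no4 (c v a) (c v b) (c v x) (c v d)
      (hc v b x (Ne.symm h2) (Ne.symm h3) hbx)
      (hc v b d (Ne.symm h2) (Ne.symm h4) hbd).symm
      (hc v x d (Ne.symm h3) (Ne.symm h4) hxd).symm
      (hc v a b (Ne.symm h1) (Ne.symm h2) hab)
      (hc v a x (Ne.symm h1) (Ne.symm h3) hax)
      (hc v a d (Ne.symm h1) (Ne.symm h4) had)
  -- the dense vertices and the classes
  set D0 : Finset V := Finset.univ.filter (fun u => γ * n ^ 2 ≤ (Lk G u).card) with hD0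
  set Fam : Finset (Finset V) := D0.powerset.filter (fun U =>
    ∀ u ∈ U, ∀ u' ∈ U, u ≠ u' → (Lk G u ∩ Lk G u').card ≤ 2 * Fintype.card V) with hFam
  have hFamne : Fam.Nonempty := ⟨∅, by rw [hFam, Finset.mem_filter]; simp⟩
  obtain ⟨U, hU, hUmax⟩ := Finset.exists_max_image Fam Finset.card hFamne
  have hU' := Finset.mem_filter.1 hU
  have hUD0 : U ⊆ D0 := Finset.mem_powerset.1 hU'.1
  have hUc : U.card ≤ k := by
    rw [hk]
    apply family_small G γ hγ0
    · rw [← hk]
      have : (0 : ℝ) ≤ 5 + (k : ℝ) := by positivity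
      linarith
    · intro u hu
      exact (Finset.mem_filter.1 (hUD0 hu)).2
    · exact hU'.2
  have hrep : ∀ u, u ∈ D0 → ∃ t ∈ U, u = t ∨ 2 * Fintype.card V < (Lk G u ∩ Lk G t).card := by
    intro u hu
    by_contra hno
    push Not at hno
    have huU : u ∉ U := fun h => (hno u h).1 rfl
    have : insert u U ∈ Fam := by
      rw [hFam, Finset.mem_filter, Finset.mem_powerset]
      refine ⟨Finset.insert_subset_iff.2 ⟨hu, hUD0⟩, ?_⟩
      intro a ha b hb hab
      rcases Finset.mem_insert.1 ha with ha1 | ha1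
      · rcases Finset.mem_insert.1 hb with hb1 | hb1
        · exact absurd (ha1.trans hb1.symm) hab
        · rw [ha1]
          exact (hno b hb1).2
      · rcases Finset.mem_insert.1 hb with hb1 | hb1
        · rw [hb1, Finset.inter_comm]
          exact (hno a ha1).2
        · exact hU'.2 a ha1 b hb1 hab
    have := hUmax _ this
    rw [Finset.card_insert_of_notMem huU] at this
    omega
  choose! ρ hρU hρ using hrep
  have hM : ∀ v, v ∉ U → ∀ u ∈ D0, u ≠ v → c v u = c v (ρ u) := by
    intro v hv u hu huv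
    rcases hρ u hu with h | h
    · rw [← h]
    · obtain ⟨p, hp, hp1, hp2⟩ := exists_avoid _ h v
      have hpu := (mem_Lk G).1 (Finset.mem_inter.1 hp).1
      have hpt := (mem_Lk G).1 (Finset.mem_inter.1 hp).2
      have hρv : ρ u ≠ v := fun h => hv (h ▸ hρU u hu)
      exact fin3_third _ _ _ _ (hc v u p.1 huv hp1 hpu.1) (hc v u p.2 huv hp2 hpu.2.1)
        (hc v _ p.1 hρv hp1 hpt.1) (hc v _ p.2 hρv hp2 hpt.2.1) (hc v _ _ hp1 hp2 hpu.2.2)
  have hInd : ∀ x ∈ D0, ∀ x' ∈ D0, ρ x = ρ x' → ¬ G.Adj x x' := by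
    intro x hx x' hx' he hadj
    obtain ⟨v, hv⟩ : ∃ v, v ∉ insert x (insert x' U) := by
      by_contra hall
      push Not at hall
      have h1 : (Finset.univ : Finset V) ⊆ insert x (insert x' U) := fun z _ => hall z
      have h2 := Finset.card_le_card h1
      have h3 := Finset.card_insert_le x (insert x' U)
      have h4 := Finset.card_insert_le x' U
      rw [Finset.card_univ] at h2
      omega
    simp only [Finset.mem_insert, not_or] at hv
    apply hc v x x' (Ne.symm hv.1) (Ne.symm hv.2.1) hadj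
    rw [hM v hv.2.2 x hx (Ne.symm hv.1), hM v hv.2.2 x' hx' (Ne.symm hv.2.1), he]
  -- sensors
  choose r hradj hrc using fun x => hext x (c x (ρ x))
  set D : Finset V := D0.filter (fun x => x ∉ U ∧ r x ∉ D0) with hD
  set N : Finset V := Finset.univ.filter (fun x => x ∉ D0) with hN
  have hDD0 : ∀ x ∈ D, x ∈ D0 := fun x hx => (Finset.mem_filter.1 hx).1
  let S : Setup G :=
    { c := c
      hc := hc
      U := U
      D := D
      N := N
      ρ := ρ
      r := r
      hDU := fun x hx => (Finset.mem_filter.1 hx).2.1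
      hDN := fun x hx h => (Finset.mem_filter.1 h).2 (hDD0 x hx)
      hρ := fun x hx => hρU x (hDD0 x hx)
      hM := fun v hv u hu huv => hM v hv u (hDD0 u hu) huv
      hr := fun x hx => Finset.mem_filter.2 ⟨Finset.mem_univ _, (Finset.mem_filter.1 hx).2.2⟩
      hadj := fun x _ => hradj x
      hR := fun x _ => hrc x
      hInd := fun x hx x' hx' he => hInd x (hDD0 x hx) x' (hDD0 x' hx') he
      hK4 := hK4 }
  -- the exceptional set
  set B : Finset V := Finset.univ \ (D ∪ N) with hB
  have hBc : B.card ≤ k + k ^ 2 := by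
    have hsub : B ⊆ U ∪ D0.filter (fun x => x ∉ U ∧ r x ∈ D0) := by
      intro x hx
      rw [hB, Finset.mem_sdiff, Finset.mem_union, not_or] at hx
      have hxD0 : x ∈ D0 := by
        by_contra h
        exact hx.2.2 (Finset.mem_filter.2 ⟨Finset.mem_univ _, h⟩)
      rw [Finset.mem_union]
      by_cases hxU : x ∈ U
      · exact Or.inl hxU
      · right
        refine Finset.mem_filter.2 ⟨hxD0, hxU, ?_⟩
        by_contra h
        exact hx.2.1 (Finset.mem_filter.2 ⟨hxD0, hxU, h⟩)
    have hinj : (D0.filter (fun x => x ∉ U ∧ r x ∈ D0)).card ≤ (U ×ˢ U).card := by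
      apply Finset.card_le_card_of_injOn (fun x => (ρ x, ρ (r x)))
      · intro x hx
        have hx := Finset.mem_filter.1 hx
        simp only [Finset.coe_product, Set.mem_prod, Finset.mem_coe]
        exact ⟨hρU x hx.1, hρU _ hx.2.2⟩
      · intro x hx x' hx' he
        have hx := Finset.mem_filter.1 hx
        have hx' := Finset.mem_filter.1 hx'
        simp only [Prod.mk.injEq] at he
        by_contra hne
        have hne' : x' ≠ x := fun h => hne h.symm
        by_cases hrx : r x' = x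
        · apply hInd x' hx'.1 x hx.1 he.1.symm
          have := hradj x'
          rwa [hrx] at this
        · apply hc x x' (r x') hne' hrx (hradj x')
          rw [hM x hx.2.1 x' hx'.1 hne', hM x hx.2.1 (r x') hx'.2.2 hrx, ← he.2, ← he.1,
            ← hM x hx.2.1 (r x) hx.2.2 (hradj x).ne', hrc x]
    calc B.card ≤ (U ∪ D0.filter (fun x => x ∉ U ∧ r x ∈ D0)).card := Finset.card_le_card hsub
      _ ≤ U.card + (U ×ˢ U).card :=
          (Finset.card_union_le _ _).trans (Nat.add_le_add_left hinj _)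
      _ ≤ k + k ^ 2 := by
          rw [Finset.card_product, ← sq]
          exact Nat.add_le_add hUc (Nat.pow_le_pow_left hUc 2)
  have hBr : (B.card : ℝ) ≤ k + k ^ 2 := by exact_mod_cast hBc
  have hn0 : 0 < n := by
    rw [hn]; exact_mod_cast (show 0 < Fintype.card V by omega)
  refine S.upper_core η hη hη1 ?_ ?_ ?_
  · -- many edges remain
    have h1 := e2_sdiff G Finset.univ B (Finset.subset_univ _)
    have h2 : Finset.univ \ B = D ∪ N := by rw [hB]; simp
    rw [h2] at h1
    have h3 : ∑ w ∈ B, dg G Finset.univ w ≤ B.card * Fintype.card V := by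
      calc ∑ w ∈ B, dg G Finset.univ w ≤ B.card • Fintype.card V := by
            apply Finset.sum_le_card_nsmul
            intro w _
            exact dg_le G _ w
        _ = _ := by rw [smul_eq_mul]
    have h4 : (e2 G Finset.univ : ℝ) ≤ e2 G (D ∪ N) + 2 * (B.card * n) := by
      have : e2 G Finset.univ ≤ e2 G (D ∪ N) + 2 * (B.card * Fintype.card V) := by omega
      rw [hn]; exact_mod_cast this
    have h5 : ((D ∪ N).card : ℝ) ≤ n := by
      rw [hn]; exact_mod_cast Finset.card_le_univ _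
    have h6 : ((D ∪ N).card : ℝ) ^ 2 ≤ n ^ 2 := pow_le_pow_left₀ (by positivity) h5 2
    have h7 : (B.card : ℝ) * n ≤ (k + k ^ 2) * n := mul_le_mul_of_nonneg_right hBr hn0.le
    have h8 : 4 * ((k : ℝ) + k ^ 2) * n ≤ η * n * n := mul_le_mul_of_nonneg_right hn2.le hn0.le
    have h9 : (1 / 2 + η) * ((D ∪ N).card : ℝ) ^ 2 ≤ (1 / 2 + η) * n ^ 2 :=
      mul_le_mul_of_nonneg_left h6 (by positivity)
    show (1 / 2 + η) * ((D ∪ N).card : ℝ) ^ 2 + η / 2 * n ^ 2 ≤ (e2 G (D ∪ N) : ℝ)
    nlinarith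
  · intro v hv
    have hv' : v ∉ D0 := (Finset.mem_filter.1 hv).2
    rw [← card_Lk]
    by_contra h
    push Not at h
    exact hv' (Finset.mem_filter.2 ⟨Finset.mem_univ _, h⟩)
  · intro m hm
    show 4 + 5 * (U.card : ℝ) + 2 * (⌈2 / η⌉₊ * 2 ^ U.card * (U.card + 1)) < η * m
    have hUr : (U.card : ℝ) ≤ k := by exact_mod_cast hUc
    have h1 : ((⌈2 / η⌉₊ : ℝ) * 2 ^ U.card * (U.card + 1)) ≤ ⌈2 / η⌉₊ * 2 ^ k * (k + 1) := by
      have : (2 : ℝ) ^ U.card ≤ 2 ^ k := pow_le_pow_right₀ (by norm_num) hUc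
      gcongr
    set M : ℝ := 4 + 5 * (k : ℝ) + 2 * (⌈2 / η⌉₊ * 2 ^ k * (k + 1)) with hMdef
    have hM0 : 0 < M := by positivity
    have h2 : 4 + 5 * (U.card : ℝ) + 2 * (⌈2 / η⌉₊ * 2 ^ U.card * (U.card + 1)) ≤ M := by
      rw [hMdef]; linarith
    refine lt_of_le_of_lt h2 ?_
    -- M < η m
    by_contra hlt
    push Not at hlt
    have hm0 : (0 : ℝ) ≤ η * m := by positivity
    have h3 : (η * m) ^ 2 ≤ M ^ 2 := pow_le_pow_left₀ hm0 hlt 2
    have h4 : η ^ 2 * (η / 2 * n ^ 2) ≤ η ^ 2 * (m : ℝ) ^ 2 :=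
      mul_le_mul_of_nonneg_left hm (by positivity)
    have h5 : (2 * M) ^ 2 < (η ^ 2 * n) ^ 2 := pow_lt_pow_left₀ hn3 (by positivity) (by norm_num)
    have h6 : η ^ 4 * n ^ 2 ≤ η ^ 3 * n ^ 2 := by
      have : η ^ 4 ≤ η ^ 3 := by
        have := mul_le_mul_of_nonneg_left hη1 (by positivity : 0 ≤ η ^ 3)
        nlinarith
      exact mul_le_mul_of_nonneg_right this (by positivity)
    nlinarith

end H851VC
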